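import Mathlib

/-!
# Cup stacking on graphs: definitions and the path lemma
-/

open SimpleGraph Relation

namespace Pool.Agent.Lib.MP_aac8f2_co

variable {V : Type*}

open Classical in
/-- One cup stacking move `u ↦ v` on a configuration `C`: both `u` and `v` carry a cup, the
distance from `u` to `v` is exactly the number of cups on `u`, and all cups of `u` are moved
onto `v`. (`u ≠ v` is automatic since `dist u u = 0`.) -/
def Move (G : SimpleGraph V) (C C' : V → ℕ) : Prop :=
  ∃ u v, 1 ≤ C u ∧ 1 ≤ C v ∧ G.dist u v = C u ∧
    C' = fun w => if w = u then 0 else if w = v then C u + C v else C w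

open Classical in
/-- `G` is `r`-stackable: from one cup on every vertex some finite sequence of moves ends
with all `|V|` cups on `r`. -/
def StackableAt [Fintype V] (G : SimpleGraph V) (r : V) : Prop :=
  ReflTransGen (Move G) (fun _ => 1) (fun w => if w = r then Fintype.card V else 0)

/-- `G` is stackable: it is `r`-stackable for every vertex `r`. -/
def Stackable [Fintype V] (G : SimpleGraph V) : Prop := ∀ r, StackableAt G r

open Classical in
/-- `G` is traceable: it has a Hamiltonian path. -/
def Traceable (G : SimpleGraph V) : Prop :=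
  ∃ a b, ∃ p : G.Walk a b, p.IsHamiltonian

open Classical in
/-- the configuration after absorbing `f 1, ..., f k` into `f 0` -/
noncomputable def after (f : ℕ → V) (k : ℕ) (C : V → ℕ) : V → ℕ := fun w =>
  if w = f 0 then C (f 0) + k else if ∃ i, 1 ≤ i ∧ i ≤ k ∧ f i = w then 0 else C w

lemma exists_walk (G : SimpleGraph V) (f : ℕ → V) (k : ℕ)
    (hadj : ∀ i, i < k → G.Adj (f i) (f (i + 1))) :
    ∃ p : G.Walk (f 0) (f k), p.length = k ∧ p.support = (List.range (k + 1)).map f := by
  induction k with
  | zero => exact ⟨Walk.nil, rfl, by simp⟩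
  | succ k ih =>
    obtain ⟨p, hp, hs⟩ := ih (fun i hi => hadj i (by omega))
    refine ⟨p.concat (hadj k (by omega)), by simp [hp], ?_⟩
    rw [Walk.support_concat, hs, List.range_succ (n := k + 1), List.map_append]
    simp

/-- **Path lemma.** If `f 0, f 1, ..., f k` is a path, one cup on each of `f 1, ..., f k` and
at least one cup on `f 0`, then all cups of `f 1, ..., f k` can be moved onto `f 0`. -/
lemma absorb (G : SimpleGraph V) (k : ℕ) : ∀ (f : ℕ → V) (C : V → ℕ),
    (∀ i j, i ≤ k → j ≤ k → f i = f j → i = j) →
    (∀ i, i < k → G.Adj (f i) (f (i + 1))) →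
    1 ≤ C (f 0) → (∀ i, 1 ≤ i → i ≤ k → C (f i) = 1) →
    ReflTransGen (Move G) C (after f k C) := by
  induction k using Nat.strong_induction_on with
  | _ k ih =>
  intro f C hinj hadj h0 h1
  rcases Nat.eq_zero_or_pos k with rfl | hk
  · have : after f 0 C = C := by
      funext w
      unfold after
      split_ifs with hw hw'
      · subst hw; simp
      · obtain ⟨i, hi1, hi2, -⟩ := hw'; omega
      · rfl
    rw [this]
  · obtain ⟨p, hp, -⟩ := exists_walk G f k hadj
    set s := G.dist (f k) (f 0) with hs
    have hne : f k ≠ f 0 := fun h => by have := hinj k 0 le_rfl (by omega) h; omega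
    have hs1 : s ≤ k := by
      rw [hs, dist_comm]
      exact (dist_le p).trans hp.le
    have hs0 : 1 ≤ s := by
      have : G.Reachable (f k) (f 0) := ⟨p.reverse⟩
      exact this.pos_dist_of_ne hne
    -- step 1
    have step1 := ih (s - 1) (by omega) (fun i => f (k - i)) C
      (fun i j hi hj h => by have := hinj (k - i) (k - j) (by omega) (by omega) h; omega)
      (fun i hi => by
        have := hadj (k - (i + 1)) (by omega)
        rw [show k - (i + 1) + 1 = k - i by omega] at this
        exact this.symm)
      (by simp [h1 k hk le_rfl]) (fun i hi1 hi2 => h1 (k - i) (by omega) (by omega))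
    -- step 2
    set C1 := after (fun i => f (k - i)) (s - 1) C with hC1
    have hC1k : C1 (f k) = s := by
      simp only [hC1, after, Nat.sub_zero, if_true]
      rw [h1 k hk le_rfl]; omega
    have hC10 : C1 (f 0) = C (f 0) := by
      simp only [hC1, after, Nat.sub_zero]
      rw [if_neg hne.symm, if_neg]
      rintro ⟨i, hi1, hi2, hi⟩
      have := hinj (k - i) 0 (by omega) (by omega) hi
      omega
    classical
    set C2 : V → ℕ := fun w => if w = f k then 0 else if w = f 0 then C1 (f k) + C1 (f 0)
      else C1 w with hC2
    have step2 : Move G C1 C2 := ⟨f k, f 0, by omega, by omega, by rw [hC1k], by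
      funext w; simp only [hC2]⟩
    have hC20 : C2 (f 0) = s + C (f 0) := by
      simp only [hC2, if_neg hne.symm, if_true, hC1k, hC10]
    have step3 := ih (k - s) (by omega) f C2
      (fun i j hi hj h => hinj i j (by omega) (by omega) h)
      (fun i hi => hadj i (by omega)) (by omega)
      (fun i hi1 hi2 => by
        have a1 : f i ≠ f k := fun h => by have := hinj i k (by omega) le_rfl h; omega
        have a2 : f i ≠ f 0 := fun h => by have := hinj i 0 (by omega) (by omega) h; omega
        simp only [hC2, if_neg a1, if_neg a2, hC1, after, Nat.sub_zero]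
        rw [if_neg, h1 i hi1 (by omega)]
        rintro ⟨j, hj1, hj2, hj⟩
        have := hinj (k - j) i (by omega) (by omega) hj
        omega)
    have hfin : after f (k - s) C2 = after f k C := by
      funext w
      simp only [after]
      by_cases hw0 : w = f 0
      · subst hw0; simp only [if_true, hC20]; omega
      · rw [if_neg hw0, if_neg hw0]
        by_cases hw : ∃ i, 1 ≤ i ∧ i ≤ k ∧ f i = w
        · rw [if_pos hw]
          split_ifs with hw'
          · rfl
          · obtain ⟨i, hi1, hi2, rfl⟩ := hw
            have hik : k - s < i := by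
              by_contra hcon
              exact hw' ⟨i, hi1, by omega, rfl⟩
            simp only [hC2]
            split_ifs with a1
            · rfl
            · simp only [hC1, after, Nat.sub_zero]
              rw [if_neg a1, if_pos]
              have : i ≠ k := fun h => a1 (by rw [h])
              exact ⟨k - i, by omega, by omega, by congr 1; omega⟩
        · rw [if_neg hw, if_neg (fun ⟨i, hi1, hi2, hi⟩ => hw ⟨i, hi1, by omega, hi⟩)]
          have a1 : w ≠ f k := fun h => hw ⟨k, hk, le_rfl, h.symm⟩
          simp only [hC2, if_neg a1, if_neg hw0, hC1, after, Nat.sub_zero]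
          rw [if_neg]
          rintro ⟨i, hi1, hi2, hi⟩
          exact hw ⟨k - i, by omega, by omega, hi⟩
    rw [← hfin]
    exact (step1.tail step2).trans step3

/-- a Hamiltonian path as an indexed sequence -/
def HamSeq (G : SimpleGraph V) (f : ℕ → V) (n : ℕ) : Prop :=
  0 < n ∧ (∀ i j, i < n → j < n → f i = f j → i = j) ∧
    (∀ i, i + 1 < n → G.Adj (f i) (f (i + 1))) ∧ ∀ v, ∃ i, i < n ∧ f i = v

lemma traceable_iff (G : SimpleGraph V) : Traceable G ↔ ∃ f n, HamSeq G f n := by
  classical
  constructor
  · rintro ⟨a, b, p, hp⟩
    have hp : p.IsHamiltonian := by convert hp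
    refine ⟨p.getVert, p.length + 1, by omega, ?_, ?_, ?_⟩
    · intro i j hi hj h
      exact hp.isPath.getVert_injOn (by simp; omega) (by simp; omega) h
    · intro i hi
      exact p.adj_getVert_succ (by omega)
    · intro v
      obtain ⟨i, hi, hi2⟩ := Walk.mem_support_iff_exists_getVert.1 (hp.mem_support v)
      exact ⟨i, by omega, hi⟩
  · rintro ⟨f, n, hn, hinj, hadj, hsurj⟩
    obtain ⟨p, hp, hs⟩ := exists_walk G f (n - 1) (fun i hi => hadj i (by omega))
    refine ⟨f 0, f (n - 1), p, ?_⟩
    intro v
    rw [hs]
    have hnd : ((List.range (n - 1 + 1)).map f).Nodup := by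
      rw [List.nodup_map_iff_inj_on List.nodup_range]
      intro i hi j hj h
      rw [List.mem_range] at hi hj
      exact hinj i j (by omega) (by omega) h
    have hmem : v ∈ (List.range (n - 1 + 1)).map f := by
      obtain ⟨i, hi, rfl⟩ := hsurj v
      exact List.mem_map.2 ⟨i, List.mem_range.2 (by omega), rfl⟩
    convert List.count_eq_one_of_mem hnd hmem

lemma HamSeq.card_eq [Fintype V] {G : SimpleGraph V} {f : ℕ → V} {n : ℕ} (h : HamSeq G f n) :
    Fintype.card V = n := by
  have : Function.Bijective (fun i : Fin n => f i) :=
    ⟨fun i j hij => Fin.ext (h.2.1 i j i.2 j.2 hij), fun v => by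
      obtain ⟨i, hi, hv⟩ := h.2.2.2 v
      exact ⟨⟨i, hi⟩, hv⟩⟩
  have := Fintype.card_of_bijective this
  simpa using this.symm

/-- Every graph with a Hamiltonian path is stackable. -/
theorem stackable_of_traceable [Fintype V] {G : SimpleGraph V} (hG : Traceable G) :
    Stackable G := by
  classical
  rw [traceable_iff] at hG
  obtain ⟨f, n, hf⟩ := hG
  have hcard := hf.card_eq
  obtain ⟨hn, hinj, hadj, hsurj⟩ := hf
  intro r
  obtain ⟨m, hm, rfl⟩ := hsurj r
  -- absorb the right part
  have step1 := absorb G (n - 1 - m) (fun i => f (m + i)) (fun _ => 1)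
    (fun i j hi hj h => by have := hinj (m + i) (m + j) (by omega) (by omega) h; omega)
    (fun i hi => hadj (m + i) (by omega)) le_rfl (fun _ _ _ => rfl)
  set C1 := after (fun i => f (m + i)) (n - 1 - m) (fun _ => 1) with hC1
  have step2 := absorb G m (fun i => f (m - i)) C1
    (fun i j hi hj h => by have := hinj (m - i) (m - j) (by omega) (by omega) h; omega)
    (fun i hi => by
      have := hadj (m - (i + 1)) (by omega)
      rw [show m - (i + 1) + 1 = m - i by omega] at this
      exact this.symm)
    (by simp [hC1, after])
    (fun i hi1 hi2 => by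
      simp only [hC1, after, Nat.add_zero]
      rw [if_neg (fun h => by have := hinj (m - i) m (by omega) (by omega) h; omega), if_neg]
      rintro ⟨j, hj1, hj2, hj⟩
      have := hinj (m + j) (m - i) (by omega) (by omega) hj
      omega)
  have hfin : after (fun i => f (m - i)) m C1 =
      fun w => if w = f m then Fintype.card V else 0 := by
    funext w
    simp only [after, Nat.sub_zero, hC1, Nat.add_zero]
    by_cases hw : w = f m
    · subst hw
      simp only [if_true]
      omega
    · simp only [if_neg hw]
      obtain ⟨j, hj, rfl⟩ := hsurj w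
      split_ifs with h1 h2
      · rfl
      · rfl
      · exfalso
        rcases lt_trichotomy j m with hjm | hjm | hjm
        · exact h1 ⟨m - j, by omega, by omega, by congr 1; omega⟩
        · exact hw (by rw [hjm])
        · exact h2 ⟨j - m, by omega, by omega, by congr 1; omega⟩
  unfold StackableAt
  rw [hfin] at step2
  convert step1.trans step2

/-- the class of traceable graphs is closed under Cartesian products -/
theorem traceable_boxProd {V W : Type*} {G : SimpleGraph V} {H : SimpleGraph W}
    (hG : Traceable G) (hH : Traceable H) : Traceable (G □ H) := by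
  rw [traceable_iff] at hG hH ⊢
  obtain ⟨f, n, hn, finj, fadj, fsurj⟩ := hG
  obtain ⟨g, m, hm, ginj, gadj, gsurj⟩ := hH
  refine ⟨fun i => (if (i / n) % 2 = 0 then f (i % n) else f (n - 1 - i % n), g (i / n)),
    n * m, by positivity, ?_, ?_, ?_⟩
  · intro i j hi hj h
    simp only [Prod.mk.injEq] at h
    obtain ⟨h1, h2⟩ := h
    have h2 := ginj _ _ (Nat.div_lt_of_lt_mul hi) (Nat.div_lt_of_lt_mul hj) h2
    rw [h2] at h1
    have hin := Nat.mod_lt i hn
    have hjn := Nat.mod_lt j hn
    have h3 : i % n = j % n := by
      split_ifs at h1 with hc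
      · exact finj _ _ hin hjn h1
      · have := finj _ _ (by omega) (by omega) h1
        omega
    rw [← Nat.div_add_mod i n, ← Nat.div_add_mod j n, h2, h3]
  · intro i hi
    have hin := Nat.mod_lt i hn
    by_cases hc : i % n + 1 < n
    · have e1 : (i + 1) / n = i / n := by
        rw [Nat.add_div hn]
        have : 1 / n = 0 := Nat.div_eq_of_lt (by omega)
        have h1n : 1 % n = 1 := Nat.mod_eq_of_lt (by omega)
        rw [this, h1n, if_neg (by omega), add_zero, add_zero]
      have e2 : (i + 1) % n = i % n + 1 := by
        rw [Nat.add_mod]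
        have h1n : 1 % n = 1 := Nat.mod_eq_of_lt (by omega)
        rw [h1n, Nat.mod_eq_of_lt hc]
      simp only [e1, e2, boxProd_adj]
      left
      refine ⟨?_, trivial⟩
      split_ifs
      · exact fadj _ hc
      · have := fadj (n - 1 - (i % n + 1)) (by omega)
        rw [show n - 1 - (i % n + 1) + 1 = n - 1 - i % n by omega] at this
        exact this.symm
    · have e0 : i % n = n - 1 := by omega
      have hdm := Nat.div_add_mod i n
      have e3 : i + 1 = n * (i / n + 1) := by
        rw [mul_add, mul_one]; omega
      have e1 : (i + 1) / n = i / n + 1 := by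
        rw [e3, Nat.mul_div_cancel_left _ hn]
      have e2 : (i + 1) % n = 0 := by
        rw [e3]; exact Nat.mul_mod_right _ _
      simp only [e1, e2, e0, boxProd_adj]
      right
      refine ⟨gadj _ ?_, ?_⟩
      · have : n * (i / n + 1) < n * m := by omega
        exact Nat.lt_of_mul_lt_mul_left this
      · rcases Nat.mod_two_eq_zero_or_one (i / n) with h | h
        · rw [if_pos h, if_neg (by omega)]; rfl
        · rw [if_neg (by omega), if_pos (by omega)]; congr 1; omega
  · rintro ⟨v, w⟩
    obtain ⟨i, hi, rfl⟩ := fsurj v
    obtain ⟨j, hj, rfl⟩ := gsurj w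
    have key : ∀ a, a < n → (n * j + a) / n = j ∧ (n * j + a) % n = a ∧ n * j + a < n * m := by
      intro a ha
      refine ⟨?_, ?_, ?_⟩
      · rw [Nat.mul_add_div hn, Nat.div_eq_of_lt ha, add_zero]
      · rw [Nat.mul_add_mod, Nat.mod_eq_of_lt ha]
      · have : n * (j + 1) ≤ n * m := Nat.mul_le_mul_left n hj
        rw [mul_add, mul_one] at this
        omega
    by_cases hc : j % 2 = 0
    · obtain ⟨k1, k2, k3⟩ := key i hi
      exact ⟨n * j + i, k3, by simp only [k1, k2, if_pos hc]⟩
    · obtain ⟨k1, k2, k3⟩ := key (n - 1 - i) (by omega)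
      refine ⟨n * j + (n - 1 - i), k3, ?_⟩
      simp only [k1, k2, if_neg hc]
      rw [show n - 1 - (n - 1 - i) = i by omega]

end Pool.Agent.Lib.MP_aac8f2_co
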