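import Pool.Agent.Lib.MP_aac8f2_co.Three

/-!
# Any number of layers
-/

open SimpleGraph

namespace Pool.Agent.Lib.MP_aac8f2_co

variable {V : Type*} {G : SimpleGraph V}

/-- growing a tree by one vertex -/
lemma Br.insert {x : V} {O : Set V} (h : Br G x O) : ∀ (u v : V), u ∈ Insert.insert x O →
    v ∉ Insert.insert x O → G.Adj u v → Br G x (Insert.insert v O) := by
  induction h with
  | nil x =>
    intro u v hu hv huv
    have hux : u = x := by simpa using hu
    subst hux
    have hvu : v ≠ u := by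
      rintro rfl
      exact hv (Set.mem_insert v ∅)
    have := Br.add (Br.nil u) (Br.nil v) huv (by simp) (by simpa using hvu.symm)
    rwa [Set.empty_union] at this
  | @add x y O C hO hC hxy hd hx ih1 ih2 =>
    intro u v hu hv huv
    have hvx : v ≠ x := fun e => hv (by rw [e]; exact Set.mem_insert x _)
    have hvO : v ∉ O := fun e => hv (Set.mem_insert_of_mem _ (Or.inl e))
    have hvC : v ∉ Insert.insert y C := fun e => hv (Set.mem_insert_of_mem _ (Or.inr e))
    have hcase : u ∈ Insert.insert x O ∨ u ∈ Insert.insert y C := by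
      rcases hu with h | h | h
      · exact Or.inl (Or.inl h)
      · exact Or.inl (Or.inr h)
      · exact Or.inr h
    rcases hcase with hu | hu
    · have h1 := ih1 u v hu (by
        rintro (h | h)
        · exact hvx h
        · exact hvO h) huv
      have := Br.add h1 hC hxy (by
        rw [Set.disjoint_left]
        rintro w (rfl | hw) hw'
        · exact hvC hw'
        · exact Set.disjoint_left.1 hd hw hw') hx
      rwa [Set.insert_union] at this
    · have h2 := ih2 u v hu hvC huv
      have e : O ∪ Insert.insert y (Insert.insert v C) =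
          Insert.insert v (O ∪ Insert.insert y C) := by
        rw [Set.insert_comm, Set.union_insert]
      have := Br.add hO h2 hxy (by
        rw [Set.disjoint_left]
        rintro w hw hw'
        rw [Set.insert_comm] at hw'
        rcases hw' with rfl | hw'
        · exact hvO hw
        · exact Set.disjoint_left.1 hd hw hw') (by
        rw [Set.insert_comm]
        rintro (h | h)
        · exact hvx h.symm
        · exact hx h)
      rwa [e] at this

/-- a spanning tree -/
lemma exists_br [Finite V] (hG : G.Connected) (x : V) :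
    ∃ O, Br G x O ∧ Insert.insert x O = Set.univ := by
  have key : ∀ n : ℕ, (∃ O, Br G x O ∧ Insert.insert x O = Set.univ) ∨
      (∃ O, Br G x O ∧ O.ncard = n) := by
    intro n
    induction n with
    | zero => exact Or.inr ⟨∅, Br.nil x, by simp⟩
    | succ n ih =>
      rcases ih with h | ⟨O, hO, hn⟩
      · exact Or.inl h
      · by_cases hu : Insert.insert x O = Set.univ
        · exact Or.inl ⟨O, hO, hu⟩
        · right
          obtain ⟨v, hv⟩ := (Set.ne_univ_iff_exists_notMem _).1 hu
          obtain ⟨p⟩ := hG.preconnected x v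
          obtain ⟨d, -, hd1, hd2⟩ := p.exists_boundary_dart (Insert.insert x O)
            (Set.mem_insert x O) hv
          refine ⟨Insert.insert d.snd O, hO.insert d.fst d.snd hd1 hd2 d.adj, ?_⟩
          rw [Set.ncard_insert_of_notMem (fun h => hd2 (Set.mem_insert_of_mem _ h)), hn]
  rcases key (Nat.card V + 1) with h | ⟨O, -, hn⟩
  · exact h
  · have : O.ncard ≤ Nat.card V := by
      rw [← Set.ncard_univ]
      exact Set.ncard_le_ncard (Set.subset_univ O)
    omega

/-- steps in the product of the square of `G` with an infinite path -/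
def StpN (G : SimpleGraph V) (a b : V × ℕ) : Prop :=
  (a.1 = b.1 ∧ (b.2 = a.2 + 1 ∨ a.2 = b.2 + 1)) ∨ (a.2 = b.2 ∧ Nr G a.1 b.1)

lemma lift {m : ℕ} (off : ℕ) {u v : V} {i j : Fin m} (h : RT G m Set.univ u i v j) :
    Rt (StpN G) {a : V × ℕ | off ≤ a.2 ∧ a.2 < off + m} (u, off + i.val) (v, off + j.val) := by
  have hinj : Function.Injective (fun a : V × Fin m => (a.1, off + a.2.val)) := by
    rintro ⟨a, i⟩ ⟨b, j⟩ h
    simp only [Prod.mk.injEq] at h
    exact Prod.ext h.1 (Fin.ext (show i.val = j.val by omega))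
  have := Rt.map (St' := StpN G) (fun a : V × Fin m => (a.1, off + a.2.val)) hinj (by
    rintro ⟨a, i⟩ ⟨b, j⟩ (⟨h1, h2⟩ | ⟨h1, h2⟩)
    · refine Or.inl ⟨h1, ?_⟩
      change j.val = i.val + 1 ∨ i.val = j.val + 1 at h2
      change off + j.val = off + i.val + 1 ∨ off + i.val = off + j.val + 1
      omega
    · refine Or.inr ⟨?_, h2⟩
      change i = j at h1
      change off + i.val = off + j.val
      rw [h1]) h
  refine Rt.congr this ?_
  ext ⟨a, k⟩
  simp only [Set.mem_image, Prod.exists, Prod.mk.injEq, Set.mem_ofPred_eq]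
  constructor
  · rintro ⟨b, l, -, rfl, rfl⟩
    have := l.2
    omega
  · rintro ⟨h1, h2⟩
    exact ⟨a, ⟨k - off, by omega⟩, Set.mem_univ a, rfl, by simp only; omega⟩

lemma even_layers {x : V} (h : RT G 2 Set.univ x 0 x 1) (k : ℕ) :
    Rt (StpN G) {a : V × ℕ | a.2 < 2 * (k + 1)} (x, 0) (x, 2 * k + 1) := by
  induction k with
  | zero =>
    refine Rt.congr (lift 0 h) ?_
    ext ⟨a, j⟩
    simp
  | succ k ih =>
    have h2 := lift (2 * (k + 1)) h
    refine Rt.congr (Rt.cat ih h2 ?_ ?_) ?_
    · rw [Set.disjoint_left]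
      rintro ⟨a, j⟩ h1 h2
      simp only [Set.mem_ofPred_eq] at h1 h2
      omega
    · exact Or.inl ⟨rfl, Or.inl (by simp; omega)⟩
    · ext ⟨a, j⟩
      simp only [Set.mem_union, Set.mem_ofPred_eq]
      omega

lemma odd_layers {x : V} (h : RT G 2 Set.univ x 0 x 1) (h3 : RT G 3 Set.univ x 0 x 2)
    (k : ℕ) : Rt (StpN G) {a : V × ℕ | a.2 < 2 * k + 3} (x, 0) (x, 2 * k + 2) := by
  induction k with
  | zero =>
    refine Rt.congr (lift 0 h3) ?_
    ext ⟨a, j⟩
    simp
  | succ k ih =>
    have h2 := lift (2 * k + 3) h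
    refine Rt.congr (Rt.cat ih h2 ?_ ?_) ?_
    · rw [Set.disjoint_left]
      rintro ⟨a, j⟩ h1 h2
      simp only [Set.mem_ofPred_eq] at h1 h2
      omega
    · exact Or.inl ⟨rfl, Or.inl (by simp)⟩
    · ext ⟨a, j⟩
      simp only [Set.mem_union, Set.mem_ofPred_eq]
      omega

/-- graphs with two vertices -/
lemma edge_layers {x c : V} (hc : G.Adj x c) (hV : ∀ v, v = x ∨ v = c) (m : ℕ) :
    ∃ b : V, Rt (StpN G) {a : V × ℕ | a.2 < m + 1} (x, 0) (b, m) := by
  have hpair : ∀ w : V, ∃ w', Rt (StpN G) {a : V × ℕ | a.2 = m} (w, m) (w', m) := by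
    intro w
    obtain ⟨w', hw', hV'⟩ : ∃ w', G.Adj w w' ∧ ∀ v, v = w ∨ v = w' := by
      rcases hV w with rfl | rfl
      · exact ⟨c, hc, hV⟩
      · exact ⟨x, hc.symm, fun v => (hV v).symm⟩
    refine ⟨w', Rt.congr (Rt.cat (Rt.one (w, m)) (Rt.one (w', m)) ?_
      (Or.inr ⟨rfl, Or.inl hw'⟩)) ?_⟩
    · rw [Set.disjoint_singleton]
      intro h
      simp only [Prod.mk.injEq, and_true] at h
      exact hw'.ne h
    · ext ⟨v, j⟩
      simp only [Set.mem_union, Set.mem_singleton_iff, Prod.mk.injEq, Set.mem_ofPred_eq]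
      constructor
      · rintro (⟨-, h⟩ | ⟨-, h⟩) <;> exact h
      · rintro rfl
        rcases hV' v with h | h
        · exact Or.inl ⟨h, rfl⟩
        · exact Or.inr ⟨h, rfl⟩
  induction m with
  | zero =>
    obtain ⟨w', hw'⟩ := hpair x
    refine ⟨w', Rt.congr hw' ?_⟩
    ext ⟨v, j⟩
    simp
  | succ m ih =>
    obtain ⟨b, hb⟩ := ih (by
      intro w
      obtain ⟨w', hw', hV'⟩ : ∃ w', G.Adj w w' ∧ ∀ v, v = w ∨ v = w' := by
        rcases hV w with rfl | rfl
        · exact ⟨c, hc, hV⟩
        · exact ⟨x, hc.symm, fun v => (hV v).symm⟩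
      refine ⟨w', Rt.congr (Rt.cat (Rt.one (w, m)) (Rt.one (w', m)) ?_
        (Or.inr ⟨rfl, Or.inl hw'⟩)) ?_⟩
      · rw [Set.disjoint_singleton]
        intro h
        simp only [Prod.mk.injEq, and_true] at h
        exact hw'.ne h
      · ext ⟨v, j⟩
        simp only [Set.mem_union, Set.mem_singleton_iff, Prod.mk.injEq, Set.mem_ofPred_eq]
        constructor
        · rintro (⟨-, h⟩ | ⟨-, h⟩) <;> exact h
        · rintro rfl
          rcases hV' v with h | h
          · exact Or.inl ⟨h, rfl⟩
          · exact Or.inr ⟨h, rfl⟩)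
    obtain ⟨w', hw'⟩ := hpair b
    refine ⟨w', Rt.congr (Rt.cat hb hw' ?_ (Or.inl ⟨rfl, Or.inl rfl⟩)) ?_⟩
    · rw [Set.disjoint_left]
      rintro ⟨a, j⟩ h1 h2
      simp only [Set.mem_ofPred_eq] at h1 h2
      omega
    · ext ⟨a, j⟩
      simp only [Set.mem_union, Set.mem_ofPred_eq]
      omega

/-- **All layers.** For a finite connected graph `G` and `m ≥ 2` there is a Hamiltonian path in
the product of the square of `G` with the path on `m` vertices. -/
theorem exists_layers [Finite V] (hG : G.Connected) (m : ℕ) (hm : 2 ≤ m) :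
    ∃ a b : V × ℕ, Rt (StpN G) {a : V × ℕ | a.2 < m} a b := by
  obtain ⟨x⟩ := hG.nonempty
  obtain ⟨O, hO, hu⟩ := exists_br hG x
  have h2 := (two hO).1
  rw [hu] at h2
  rcases Nat.even_or_odd' m with ⟨k, hk | hk⟩
  · obtain ⟨l, rfl⟩ : ∃ l, k = l + 1 := ⟨k - 1, by omega⟩
    have := even_layers h2 l
    rw [hk]
    exact ⟨_, _, this⟩
  · obtain ⟨l, rfl⟩ : ∃ l, k = l + 1 := ⟨k - 1, by omega⟩
    by_cases hs : ∃ c, O = {c}
    · obtain ⟨c, hc⟩ := hs
      have hxc := ((three hO).2.2.2.2 c hc).2
      obtain ⟨b, hb⟩ := edge_layers hxc (by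
        intro v
        have : v ∈ Insert.insert x O := by rw [hu]; exact Set.mem_univ v
        rw [hc] at this
        exact this) (2 * (l + 1))
      rw [hk]
      exact ⟨_, _, hb⟩
    · have h3 := (three hO).1 hs
      rw [hu] at h3
      have := odd_layers h2 h3 l
      rw [hk]
      exact ⟨_, _, this⟩

end Pool.Agent.Lib.MP_aac8f2_co
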