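import Pool.Agent.Lib.MP_aac8f2_co.Basic

/-!
# Cup stacking: graphs whose vertices come in a good sequence of pairs

A *pair sequence* is a sequence of disjoint pairs of adjacent vertices such that from every
vertex exactly one vertex of each pair is at even distance, and such that these distances
(and also the odd ones) change by at most two from one pair to the next. Such a sequence can
be stacked onto each of its vertices.
-/

open SimpleGraph Relation

namespace Pool.Agent.Lib.MP_aac8f2_co

variable {V : Type*}

/-- Pairs `(p 0, q 0), ..., (p k, q k)`, all vertices different, the two vertices of a pair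
adjacent and at distances of different parity from every vertex, distances of equal parity of
consecutive pairs differing by at most two. -/
structure PSeq (G : SimpleGraph V) (p q : ℕ → V) (k : ℕ) : Prop where
  injp : ∀ i j, i ≤ k → j ≤ k → p i = p j → i = j
  injq : ∀ i j, i ≤ k → j ≤ k → q i = q j → i = j
  ne : ∀ i j, i ≤ k → j ≤ k → p i ≠ q j
  adj : ∀ i, i ≤ k → G.Adj (p i) (q i)
  odd : ∀ i, i ≤ k → ∀ r, (G.dist (p i) r + G.dist (q i) r) % 2 = 1
  near : ∀ i, i < k → ∀ r x y, (x = p i ∨ x = q i) → (y = p (i + 1) ∨ y = q (i + 1)) →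
    (G.dist x r + G.dist y r) % 2 = 0 →
      G.dist x r ≤ G.dist y r + 2 ∧ G.dist y r ≤ G.dist x r + 2

/-- a part of a pair sequence, in the same order -/
lemma PSeq.sub {G : SimpleGraph V} {p q : ℕ → V} {k : ℕ} (h : PSeq G p q k) (a m : ℕ)
    (hm : a + m ≤ k) : PSeq G (fun i => p (a + i)) (fun i => q (a + i)) m where
  injp i j hi hj e := by have := h.injp _ _ (by omega) (by omega) e; omega
  injq i j hi hj e := by have := h.injq _ _ (by omega) (by omega) e; omega
  ne i j hi hj := h.ne _ _ (by omega) (by omega)
  adj i hi := h.adj _ (by omega)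
  odd i hi r := h.odd _ (by omega) r
  near i hi r x y hx hy := h.near (a + i) (by omega) r x y hx hy

/-- a part of a pair sequence, in the reverse order -/
lemma PSeq.rev {G : SimpleGraph V} {p q : ℕ → V} {k : ℕ} (h : PSeq G p q k) (a m : ℕ)
    (ha : a ≤ k) (hm : m ≤ a) : PSeq G (fun i => p (a - i)) (fun i => q (a - i)) m where
  injp i j hi hj e := by have := h.injp _ _ (by omega) (by omega) e; omega
  injq i j hi hj e := by have := h.injq _ _ (by omega) (by omega) e; omega
  ne i j hi hj := h.ne _ _ (by omega) (by omega)
  adj i hi := h.adj _ (by omega)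
  odd i hi r := h.odd _ (by omega) r
  near i hi r x y hx hy hp := by
    have e : a - (i + 1) + 1 = a - i := by omega
    have := h.near (a - (i + 1)) (by omega) r y x hy (by rw [e]; exact hx)
      (by rw [add_comm]; exact hp)
    exact ⟨this.2, this.1⟩

/-- the vertex of a pair at even distance, with its partner -/
lemma PSeq.even_vertex {G : SimpleGraph V} {p q : ℕ → V} {k : ℕ} (h : PSeq G p q k) (i : ℕ)
    (hi : i ≤ k) (r : V) : ∃ y y', ((y = p i ∧ y' = q i) ∨ (y = q i ∧ y' = p i)) ∧
      G.dist y r % 2 = 0 := by
  have := h.odd i hi r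
  rcases Nat.mod_two_eq_zero_or_one (G.dist (p i) r) with h1 | h1
  · exact ⟨p i, q i, Or.inl ⟨rfl, rfl⟩, h1⟩
  · exact ⟨q i, p i, Or.inr ⟨rfl, rfl⟩, by omega⟩

/-- the even distances grow by at most two per pair -/
lemma PSeq.dist_le {G : SimpleGraph V} {p q : ℕ → V} {k : ℕ} (h : PSeq G p q k) (z : V)
    (hz : z = p 0 ∨ z = q 0) : ∀ i, i ≤ k → ∀ x, (x = p i ∨ x = q i) →
      G.dist x z % 2 = 0 → G.dist x z ≤ 2 * i := by
  intro i
  induction i with
  | zero =>
    intro _ x hx hp
    have hadj := h.adj 0 (by omega)
    rcases hz with rfl | rfl <;> rcases hx with rfl | rfl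
    · simp
    · rw [dist_eq_one_iff_adj.2 hadj.symm] at hp; omega
    · rw [dist_eq_one_iff_adj.2 hadj] at hp; omega
    · simp
  | succ i ih =>
    intro hi x hx hp
    obtain ⟨y, y', hy, hye⟩ := h.even_vertex i (by omega) z
    have hy' : y = p i ∨ y = q i := by rcases hy with hy | hy <;> simp [hy.1]
    have h1 := ih (by omega) y hy' hye
    have h2 := h.near i (by omega) z y x hy' hx (by omega)
    omega

open Classical in
/-- the configuration after absorbing the pairs `1, ..., k` into `z` -/
noncomputable def after2 (p q : ℕ → V) (z : V) (k : ℕ) (C : V → ℕ) : V → ℕ := fun w =>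
  if w = z then C z + 2 * k else if ∃ i, 1 ≤ i ∧ i ≤ k ∧ (p i = w ∨ q i = w) then 0 else C w

/-- **Pair lemma.** If `z` is a vertex of the pair `0` which carries a cup and the vertices of
the pairs `1, ..., k` carry one cup each, all their cups can be moved onto `z`. -/
lemma absorb2 (G : SimpleGraph V) (k : ℕ) : ∀ (p q : ℕ → V) (z : V) (C : V → ℕ),
    PSeq G p q k → (z = p 0 ∨ z = q 0) → 1 ≤ C z →
    (∀ i, 1 ≤ i → i ≤ k → C (p i) = 1 ∧ C (q i) = 1) →
    ReflTransGen (Move G) C (after2 p q z k C) := by
  induction k using Nat.strong_induction_on with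
  | _ k ih =>
  intro p q z C hs hz h0 h1
  rcases Nat.eq_zero_or_pos k with rfl | hk
  · have : after2 p q z 0 C = C := by
      funext w
      unfold after2
      split_ifs with hw hw'
      · subst hw; simp
      · obtain ⟨i, hi1, hi2, -⟩ := hw'; omega
      · rfl
    rw [this]
  · -- facts on `z` and the other pairs
    have hzne : ∀ i, 1 ≤ i → i ≤ k → p i ≠ z ∧ q i ≠ z := by
      intro i hi1 hi2
      rcases hz with rfl | rfl
      · exact ⟨fun e => by have := hs.injp _ _ hi2 (by omega) e; omega,
          fun e => hs.ne 0 i (by omega) hi2 e.symm⟩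
      · exact ⟨fun e => hs.ne i 0 hi2 (by omega) e,
          fun e => by have := hs.injq _ _ hi2 (by omega) e; omega⟩
    obtain ⟨y, y', hy, hye⟩ := hs.even_vertex k le_rfl z
    have hyp : y = p k ∨ y = q k := by rcases hy with hy | hy <;> simp [hy.1]
    have hyp' : y' = p k ∨ y' = q k := by rcases hy with hy | hy <;> simp [hy.2]
    have hadj : G.Adj y' y := by
      rcases hy with ⟨rfl, rfl⟩ | ⟨rfl, rfl⟩
      · exact (hs.adj k le_rfl).symm
      · exact hs.adj k le_rfl
    have hyz : y ≠ z := by
      rcases hyp with rfl | rfl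
      · exact (hzne k hk le_rfl).1
      · exact (hzne k hk le_rfl).2
    have hyz' : y' ≠ z := by
      rcases hyp' with rfl | rfl
      · exact (hzne k hk le_rfl).1
      · exact (hzne k hk le_rfl).2
    have hyy' : y' ≠ y := hadj.ne
    have hCy : C y = 1 := by
      rcases hyp with rfl | rfl
      · exact (h1 k hk le_rfl).1
      · exact (h1 k hk le_rfl).2
    have hCy' : C y' = 1 := by
      rcases hyp' with rfl | rfl
      · exact (h1 k hk le_rfl).1
      · exact (h1 k hk le_rfl).2
    -- the other pairs avoid `y` and `y'`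
    have hother : ∀ i, i < k → (p i ≠ y ∧ q i ≠ y) ∧ (p i ≠ y' ∧ q i ≠ y') := by
      intro i hi
      have a1 : p i ≠ p k := fun e => by have := hs.injp _ _ (by omega) le_rfl e; omega
      have a2 : q i ≠ q k := fun e => by have := hs.injq _ _ (by omega) le_rfl e; omega
      have a3 : p i ≠ q k := hs.ne _ _ (by omega) le_rfl
      have a4 : q i ≠ p k := (hs.ne _ _ le_rfl (by omega)).symm
      rcases hy with ⟨rfl, rfl⟩ | ⟨rfl, rfl⟩
      · exact ⟨⟨a1, a4⟩, ⟨a3, a2⟩⟩
      · exact ⟨⟨a3, a2⟩, ⟨a1, a4⟩⟩
    -- the distance is `2 t` with `1 ≤ t ≤ k`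
    have hle := hs.dist_le z hz k le_rfl y hyp hye
    have hpos : 1 ≤ G.dist y z := by
      by_contra hcon
      have h00 : G.dist y z = 0 := by omega
      have hnr : ¬ G.Reachable y z := by
        intro hr
        exact hyz (hr.dist_eq_zero_iff.1 h00)
      have hnr' : ¬ G.Reachable y' z := fun hr => hnr (hadj.symm.reachable.trans hr)
      have h01 : G.dist y' z = 0 := dist_eq_zero_of_not_reachable hnr'
      have := hs.odd k le_rfl z
      rcases hy with ⟨rfl, rfl⟩ | ⟨rfl, rfl⟩ <;> omega
    obtain ⟨t, ht⟩ : ∃ t, G.dist y z = 2 * t := ⟨G.dist y z / 2, by omega⟩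
    have ht1 : 1 ≤ t := by omega
    have htk : t ≤ k := by omega
    -- step 1: absorb `t - 1` pairs into `y`
    have hrev := hs.rev k (t - 1) le_rfl (by omega)
    have step1 := ih (t - 1) (by omega) (fun i => p (k - i)) (fun i => q (k - i)) y C hrev
      (by simpa using hyp) (by omega)
      (fun i hi1 hi2 => h1 (k - i) (by omega) (by omega))
    set C1 := after2 (fun i => p (k - i)) (fun i => q (k - i)) y (t - 1) C with hC1
    have hC1y : C1 y = 2 * t - 1 := by
      simp only [hC1, after2, if_true]
      rw [hCy]; omega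
    have hC1y' : C1 y' = 1 := by
      simp only [hC1, after2]
      rw [if_neg hyy', if_neg, hCy']
      rintro ⟨i, hi1, hi2, hi⟩
      have := (hother (k - i) (by omega)).2
      rcases hi with hi | hi
      · exact this.1 hi
      · exact this.2 hi
    have hC1z : C1 z = C z := by
      simp only [hC1, after2]
      rw [if_neg hyz.symm, if_neg]
      rintro ⟨i, hi1, hi2, hi⟩
      have := hzne (k - i) (by omega) (by omega)
      rcases hi with hi | hi
      · exact this.1 hi
      · exact this.2 hi
    -- step 2: the partner moves onto `y`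
    classical
    set C2 : V → ℕ := fun w => if w = y' then 0 else if w = y then C1 y' + C1 y
      else C1 w with hC2
    have step2 : Move G C1 C2 := ⟨y', y, by omega, by omega, by
      rw [hC1y']; exact dist_eq_one_iff_adj.2 hadj, by
      funext w; simp only [hC2]⟩
    have hC2y : C2 y = 2 * t := by
      simp only [hC2, if_neg hyy'.symm, if_true]; omega
    have hC2z : C2 z = C z := by
      simp only [hC2, if_neg hyz'.symm, if_neg hyz.symm]; exact hC1z
    -- step 3: jump onto `z`
    set C3 : V → ℕ := fun w => if w = y then 0 else if w = z then C2 y + C2 z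
      else C2 w with hC3
    have step3 : Move G C2 C3 := ⟨y, z, by omega, by omega, by rw [hC2y, ht], by
      funext w; simp only [hC3]⟩
    have hC3z : C3 z = C z + 2 * t := by
      simp only [hC3, if_neg hyz.symm, if_true]; omega
    -- step 4: the rest
    have hsub : PSeq G p q (k - t) := by
      have := hs.sub 0 (k - t) (by omega)
      simpa using this
    have hC3w : ∀ w, w ≠ y → w ≠ y' → w ≠ z →
        (¬ ∃ i, 1 ≤ i ∧ i ≤ t - 1 ∧ (p (k - i) = w ∨ q (k - i) = w)) → C3 w = C w := by
      intro w w1 w2 w3 w4
      simp only [hC3, if_neg w1, if_neg w3, hC2, if_neg w2, hC1, after2]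
      rw [if_neg w4]
    have step4 := ih (k - t) (by omega) p q z C3 hsub hz (by omega)
      (fun i hi1 hi2 => by
        have b := hother i (by omega)
        have c := hzne i hi1 (by omega)
        constructor
        · rw [hC3w (p i) b.1.1 b.2.1 c.1, (h1 i hi1 (by omega)).1]
          rintro ⟨j, hj1, hj2, hj⟩
          rcases hj with hj | hj
          · have := hs.injp _ _ (by omega) (by omega) hj; omega
          · exact hs.ne i (k - j) (by omega) (by omega) hj.symm
        · rw [hC3w (q i) b.1.2 b.2.2 c.2, (h1 i hi1 (by omega)).2]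
          rintro ⟨j, hj1, hj2, hj⟩
          rcases hj with hj | hj
          · exact hs.ne (k - j) i (by omega) (by omega) hj
          · have := hs.injq _ _ (by omega) (by omega) hj; omega)
    have hfin : after2 p q z (k - t) C3 = after2 p q z k C := by
      funext w
      simp only [after2]
      by_cases hw0 : w = z
      · subst hw0; simp only [if_true, hC3z]; omega
      · rw [if_neg hw0, if_neg hw0]
        by_cases hw : ∃ i, 1 ≤ i ∧ i ≤ k ∧ (p i = w ∨ q i = w)
        · rw [if_pos hw]
          split_ifs with hw'
          · rfl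
          · obtain ⟨i, hi1, hi2, hi⟩ := hw
            have hik : k - t < i := by
              by_contra hcon
              exact hw' ⟨i, hi1, by omega, hi⟩
            by_cases hwy : w = y
            · simp only [hC3, if_pos hwy]
            by_cases hwy' : w = y'
            · simp only [hC3, if_neg hwy, if_neg hw0, hC2, if_pos hwy']
            · simp only [hC3, if_neg hwy, if_neg hw0, hC2, if_neg hwy', hC1, after2]
              rw [if_pos]
              have hik' : i ≠ k := by
                rintro rfl
                rcases hy with ⟨e1, e2⟩ | ⟨e1, e2⟩ <;> rcases hi with hi | hi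
                · exact hwy (by rw [e1, hi])
                · exact hwy' (by rw [e2, hi])
                · exact hwy' (by rw [e2, hi])
                · exact hwy (by rw [e1, hi])
              refine ⟨k - i, by omega, by omega, ?_⟩
              rw [show k - (k - i) = i by omega]
              exact hi
        · rw [if_neg hw, if_neg (fun ⟨i, hi1, hi2, hi⟩ => hw ⟨i, hi1, by omega, hi⟩)]
          refine hC3w w ?_ ?_ hw0 ?_
          · rintro rfl
            exact hw ⟨k, hk, le_rfl, by rcases hyp with e | e <;> simp [e]⟩
          · rintro rfl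
            exact hw ⟨k, hk, le_rfl, by rcases hyp' with e | e <;> simp [e]⟩
          · rintro ⟨i, hi1, hi2, hi⟩
            exact hw ⟨k - i, by omega, by omega, hi⟩
    rw [← hfin]
    exact ((step1.tail step2).tail step3).trans step4

/-- a pair sequence which contains all vertices -/
def PairOrder (G : SimpleGraph V) (p q : ℕ → V) (n : ℕ) : Prop :=
  PSeq G p q n ∧ ∀ v, ∃ i, i ≤ n ∧ (p i = v ∨ q i = v)

lemma PairOrder.card_eq [Fintype V] {G : SimpleGraph V} {p q : ℕ → V} {n : ℕ}
    (h : PairOrder G p q n) : Fintype.card V = 2 * (n + 1) := by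
  classical
  have : Function.Bijective (fun i : Fin (n + 1) ⊕ Fin (n + 1) =>
      Sum.elim (fun i : Fin (n + 1) => p i) (fun i : Fin (n + 1) => q i) i) := by
    constructor
    · rintro (i | i) (j | j) hij
      · have := h.1.injp i j (by omega) (by omega) hij
        exact congrArg Sum.inl (Fin.ext this)
      · exact absurd hij (h.1.ne i j (by omega) (by omega))
      · exact absurd hij.symm (h.1.ne j i (by omega) (by omega))
      · have := h.1.injq i j (by omega) (by omega) hij
        exact congrArg Sum.inr (Fin.ext this)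
    · intro v
      obtain ⟨i, hi, hv | hv⟩ := h.2 v
      · exact ⟨Sum.inl ⟨i, by omega⟩, hv⟩
      · exact ⟨Sum.inr ⟨i, by omega⟩, hv⟩
  have := Fintype.card_of_bijective this
  simp at this
  omega

/-- Every graph with a pair order is stackable. -/
theorem stackable_of_pairOrder [Fintype V] {G : SimpleGraph V} {p q : ℕ → V} {n : ℕ}
    (h : PairOrder G p q n) : Stackable G := by
  classical
  have hcard := h.card_eq
  obtain ⟨hs, hcov⟩ := h
  intro r
  obtain ⟨m, hm, hrm⟩ := hcov r
  have hr : r = p m ∨ r = q m := by rcases hrm with e | e <;> simp [e]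
  -- the partner of `r`
  obtain ⟨r', hr'⟩ : ∃ r', (r = p m ∧ r' = q m) ∨ (r = q m ∧ r' = p m) := by
    rcases hr with e | e
    · exact ⟨q m, Or.inl ⟨e, rfl⟩⟩
    · exact ⟨p m, Or.inr ⟨e, rfl⟩⟩
  have hadj : G.Adj r' r := by
    rcases hr' with ⟨rfl, rfl⟩ | ⟨rfl, rfl⟩
    · exact (hs.adj m hm).symm
    · exact hs.adj m hm
  have hother : ∀ i, i ≤ n → i ≠ m → (p i ≠ r ∧ q i ≠ r) ∧ (p i ≠ r' ∧ q i ≠ r') := by
    intro i hi him
    have a1 : p i ≠ p m := fun e => him (hs.injp _ _ hi hm e)
    have a2 : q i ≠ q m := fun e => him (hs.injq _ _ hi hm e)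
    have a3 : p i ≠ q m := hs.ne _ _ hi hm
    have a4 : q i ≠ p m := (hs.ne _ _ hm hi).symm
    rcases hr' with ⟨rfl, rfl⟩ | ⟨rfl, rfl⟩
    · exact ⟨⟨a1, a4⟩, ⟨a3, a2⟩⟩
    · exact ⟨⟨a3, a2⟩, ⟨a1, a4⟩⟩
  -- absorb the right part
  have step1 := absorb2 G (n - m) (fun i => p (m + i)) (fun i => q (m + i)) r (fun _ => 1)
    (hs.sub m (n - m) (by omega)) (by simpa using hr) le_rfl (fun _ _ _ => ⟨rfl, rfl⟩)
  set C1 := after2 (fun i => p (m + i)) (fun i => q (m + i)) r (n - m) (fun _ => 1) with hC1
  -- absorb the left part
  have step2 := absorb2 G m (fun i => p (m - i)) (fun i => q (m - i)) r C1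
    (hs.rev m m hm le_rfl) (by simpa using hr) (by simp [hC1, after2])
    (fun i hi1 hi2 => by
      have b := hother (m - i) (by omega) (by omega)
      simp only [hC1, after2]
      constructor
      · rw [if_neg b.1.1, if_neg]
        rintro ⟨j, hj1, hj2, hj⟩
        rcases hj with hj | hj
        · have := hs.injp _ _ (by omega) (by omega) hj; omega
        · exact hs.ne (m - i) (m + j) (by omega) (by omega) hj.symm
      · rw [if_neg b.1.2, if_neg]
        rintro ⟨j, hj1, hj2, hj⟩
        rcases hj with hj | hj
        · exact hs.ne (m + j) (m - i) (by omega) (by omega) hj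
        · have := hs.injq _ _ (by omega) (by omega) hj; omega)
  set C2 := after2 (fun i => p (m - i)) (fun i => q (m - i)) r m C1 with hC2
  have hC1r : C1 r = 1 + 2 * (n - m) := by simp [hC1, after2]
  have hC2r : C2 r = 2 * n + 1 := by
    simp only [hC2, after2, if_true, hC1r]; omega
  have hC1r' : C1 r' = 1 := by
    simp only [hC1, after2]
    rw [if_neg hadj.ne, if_neg]
    rintro ⟨j, hj1, hj2, hj⟩
    have := (hother (m + j) (by omega) (by omega)).2
    rcases hj with hj | hj
    · exact this.1 hj
    · exact this.2 hj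
  have hC2r' : C2 r' = 1 := by
    simp only [hC2, after2]
    rw [if_neg hadj.ne, if_neg, hC1r']
    rintro ⟨j, hj1, hj2, hj⟩
    have := (hother (m - j) (by omega) (by omega)).2
    rcases hj with hj | hj
    · exact this.1 hj
    · exact this.2 hj
  -- the last move
  have hfin : (fun w => if w = r then Fintype.card V else 0) =
      fun w => if w = r' then 0 else if w = r then C2 r' + C2 r else C2 w := by
    funext w
    by_cases hw' : w = r'
    · rw [if_pos hw', if_neg (by rw [hw']; exact hadj.ne)]
    by_cases hw : w = r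
    · rw [if_pos hw, if_neg hw', if_pos hw]; omega
    rw [if_neg hw, if_neg hw', if_neg hw]
    simp only [hC2, after2, if_neg hw]
    obtain ⟨j, hj, hjw⟩ := hcov w
    split_ifs with h1
    · rfl
    · simp only [hC1, after2, if_neg hw]
      rw [if_pos]
      rcases lt_trichotomy j m with hjm | hjm | hjm
      · exact absurd ⟨m - j, by omega, by omega, by
          rw [show m - (m - j) = j by omega]; exact hjw⟩ h1
      · exfalso
        subst hjm
        rcases hr' with ⟨e1, e2⟩ | ⟨e1, e2⟩ <;> rcases hjw with e | e
        · exact hw (by rw [e1, e])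
        · exact hw' (by rw [e2, e])
        · exact hw' (by rw [e2, e])
        · exact hw (by rw [e1, e])
      · exact ⟨j - m, by omega, by omega, by
          rw [show m + (j - m) = j by omega]; exact hjw⟩
  have step3 : Move G C2 (fun w => if w = r then Fintype.card V else 0) :=
    ⟨r', r, by omega, by omega, by rw [hC2r']; exact dist_eq_one_iff_adj.2 hadj, by
      rw [hfin]⟩
  unfold StackableAt
  have := (step1.trans step2).tail step3
  convert this

end Pool.Agent.Lib.MP_aac8f2_co
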