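import Pool.Agent.Lib.MP_aac8f2_co.Pairs
import Pool.Agent.Lib.MP_aac8f2_co.Layers

/-!
# Cup stacking on products with a factor which is a chain of pairs
-/

open SimpleGraph

namespace Pool.Agent.Lib.MP_aac8f2_co

variable {V W : Type*} {G : SimpleGraph V} {H : SimpleGraph W}

/-- `H` is a *chain of `m` pairs*: its vertices are `p 0, q 0, ..., p (m - 1), q (m - 1)`, all
different; `p i` and `q i` are adjacent and no vertex of `H` has the same distance to both; and
the distances between the vertices of consecutive pairs are at most three. -/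
structure PairChain (H : SimpleGraph W) (p q : ℕ → W) (m : ℕ) : Prop where
  injp : ∀ i j, i < m → j < m → p i = p j → i = j
  injq : ∀ i j, i < m → j < m → q i = q j → i = j
  ne : ∀ i j, i < m → j < m → p i ≠ q j
  cov : ∀ w, ∃ i, i < m ∧ (p i = w ∨ q i = w)
  adj : ∀ i, i < m → H.Adj (p i) (q i)
  equi : ∀ i, i < m → ∀ s, H.dist (p i) s ≠ H.dist (q i) s
  near : ∀ i, i + 1 < m → ∀ x y, (x = p i ∨ x = q i) → (y = p (i + 1) ∨ y = q (i + 1)) →
    H.dist x y ≤ 3

/-- distances in a product -/
lemma dist_box (hG : G.Connected) (hH : H.Connected) (x y : V × W) :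
    (G □ H).dist x y = G.dist x.1 y.1 + H.dist x.2 y.2 := by
  have h1 : G.edist x.1 y.1 ≠ ⊤ := edist_ne_top_iff_reachable.2 (hG.preconnected _ _)
  have h2 : H.edist x.2 y.2 ≠ ⊤ := edist_ne_top_iff_reachable.2 (hH.preconnected _ _)
  unfold SimpleGraph.dist
  rw [edist_boxProd, ENat.toNat_add h1 h2]

/-- adjacent vertices of a bipartite graph have different distances to every vertex -/
lemma dist_ne_of_colorable (hH : H.Connected) (hc : H.Colorable 2) {u v : W}
    (huv : H.Adj u v) (s : W) : H.dist u s ≠ H.dist v s := by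
  obtain ⟨c0⟩ := hc
  let c : H.Coloring Bool := recolorOfEquiv H finTwoEquiv c0
  obtain ⟨p, hp⟩ := hH.exists_walk_length_eq_dist u s
  obtain ⟨q, hq⟩ := hH.exists_walk_length_eq_dist v s
  have h1 := c.even_length_iff_congr p
  have h2 := c.even_length_iff_congr q
  have h3 := c.valid huv
  rw [hp] at h1
  rw [hq] at h2
  intro e
  rw [e] at h1
  cases hu : c u <;> cases hv : c v <;> cases hs : c s <;> simp_all

lemma dist_adj_le (hH : H.Connected) {u v : W} (huv : H.Adj u v) (s : W) :
    H.dist u s ≤ H.dist v s + 1 := by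
  have := hH.dist_triangle (u := u) (v := v) (w := s)
  rw [dist_eq_one_iff_adj.2 huv] at this
  omega

lemma dist_nr_le (hG : G.Connected) {x y : V} (h : Nr G x y) : G.dist x y ≤ 2 := by
  rcases h with h | ⟨w, h1, h2⟩
  · rw [dist_eq_one_iff_adj.2 h]; omega
  · have := hG.dist_triangle (u := x) (v := w) (w := y)
    rw [dist_eq_one_iff_adj.2 h1, dist_eq_one_iff_adj.2 h2] at this
    exact this

/-- vertices of the same pair -/
lemma pair_dist {a b x y : W} (hab : H.Adj a b) (hx : x = a ∨ x = b)
    (hy : y = a ∨ y = b) : H.dist x y ≤ 1 := by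
  rcases hx with rfl | rfl <;> rcases hy with rfl | rfl
  · simp
  · rw [dist_eq_one_iff_adj.2 hab]
  · rw [dist_eq_one_iff_adj.2 hab.symm]
  · simp

/-- a chain of pairs is an order of pairs -/
theorem PairChain.pairOrder (hH : H.Connected) {p q : ℕ → W} {m : ℕ}
    (h : PairChain H p q m) (hm : 1 ≤ m) : PairOrder H p q (m - 1) := by
  have hodd : ∀ i, i < m → ∀ r, (H.dist (p i) r + H.dist (q i) r) % 2 = 1 := by
    intro i hi r
    have h1 := dist_adj_le hH (h.adj i hi) r
    have h2 := dist_adj_le hH (h.adj i hi).symm r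
    have h3 := h.equi i hi r
    omega
  refine ⟨⟨?_, ?_, ?_, ?_, ?_, ?_⟩, ?_⟩
  · exact fun i j hi hj e => h.injp i j (by omega) (by omega) e
  · exact fun i j hi hj e => h.injq i j (by omega) (by omega) e
  · exact fun i j hi hj => h.ne i j (by omega) (by omega)
  · exact fun i hi => h.adj i (by omega)
  · exact fun i hi => hodd i (by omega)
  · intro i hi r x y hx hy hpar
    have h1 := h.near i (by omega) x y hx hy
    have h2 := hH.dist_triangle (u := x) (v := y) (w := r)
    have h3 := hH.dist_triangle (u := y) (v := x) (w := r)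
    rw [dist_comm (u := y) (v := x)] at h3
    omega
  · intro w
    obtain ⟨i, hi, hw⟩ := h.cov w
    exact ⟨i, by omega, hw⟩

/-- **Stacking a chain of pairs.** -/
theorem PairChain.stackable [Fintype W] (hH : H.Connected) {p q : ℕ → W} {m : ℕ}
    (h : PairChain H p q m) : Stackable H := by
  obtain ⟨w⟩ := hH.nonempty
  obtain ⟨i, hi, -⟩ := h.cov w
  exact stackable_of_pairOrder (h.pairOrder hH (by omega))

/-- a route through the fibres of a product gives a chain of pairs -/
theorem pairChain_of_route (hG : G.Connected) (hH : H.Connected) {p q : ℕ → W} {m : ℕ}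
    (h : PairChain H p q m) {n : ℕ} {f : ℕ → V × ℕ}
    (hstep : ∀ i, i < n → StpN G (f i) (f (i + 1)))
    (hinj : ∀ i j, i ≤ n → j ≤ n → f i = f j → i = j)
    (hmem : ∀ z, z ∈ {a : V × ℕ | a.2 < m} ↔ ∃ i, i ≤ n ∧ f i = z) :
    PairChain (G □ H) (fun i => ((f i).1, p (f i).2)) (fun i => ((f i).1, q (f i).2))
      (n + 1) := by
  have hlt : ∀ i, i ≤ n → (f i).2 < m := fun i hi => (hmem _).2 ⟨i, hi, rfl⟩
  refine ⟨?_, ?_, ?_, ?_, ?_, ?_, ?_⟩
  · intro i j hi hj e
    simp only [Prod.mk.injEq] at e
    exact hinj i j (by omega) (by omega)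
      (Prod.ext e.1 (h.injp _ _ (hlt i (by omega)) (hlt j (by omega)) e.2))
  · intro i j hi hj e
    simp only [Prod.mk.injEq] at e
    exact hinj i j (by omega) (by omega)
      (Prod.ext e.1 (h.injq _ _ (hlt i (by omega)) (hlt j (by omega)) e.2))
  · intro i j hi hj e
    simp only [Prod.mk.injEq] at e
    exact h.ne _ _ (hlt i (by omega)) (hlt j (by omega)) e.2
  · rintro ⟨v, w⟩
    obtain ⟨j, hj, hw⟩ := h.cov w
    obtain ⟨i, hi, hfi⟩ := (hmem (v, j)).1 hj
    refine ⟨i, by omega, ?_⟩
    simp only [hfi, Prod.mk.injEq, true_and]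
    exact hw
  · intro i hi
    rw [boxProd_adj]
    exact Or.inr ⟨h.adj _ (hlt i (by omega)), rfl⟩
  · intro i hi s e
    rw [dist_box hG hH, dist_box hG hH] at e
    exact h.equi _ (hlt i (by omega)) s.2 (by simpa using e)
  · intro i hi x y hx hy
    obtain ⟨x2, hx2, rfl⟩ : ∃ x2, (x2 = p (f i).2 ∨ x2 = q (f i).2) ∧ x = ((f i).1, x2) := by
      rcases hx with rfl | rfl
      · exact ⟨_, Or.inl rfl, rfl⟩
      · exact ⟨_, Or.inr rfl, rfl⟩
    obtain ⟨y2, hy2, rfl⟩ : ∃ y2, (y2 = p (f (i + 1)).2 ∨ y2 = q (f (i + 1)).2) ∧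
        y = ((f (i + 1)).1, y2) := by
      rcases hy with rfl | rfl
      · exact ⟨_, Or.inl rfl, rfl⟩
      · exact ⟨_, Or.inr rfl, rfl⟩
    rw [dist_box hG hH]
    change G.dist (f i).1 (f (i + 1)).1 + H.dist x2 y2 ≤ 3
    have hli := hlt i (by omega)
    have hlj := hlt (i + 1) (by omega)
    rcases hstep i (by omega) with ⟨e1, e2⟩ | ⟨e1, e2⟩
    · rw [e1, dist_self, zero_add]
      rcases e2 with e2 | e2
      · rw [e2] at hy2
        exact h.near _ (by omega) x2 y2 hx2 hy2
      · rw [e2] at hx2
        rw [dist_comm]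
        exact h.near _ (by omega) y2 x2 hy2 hx2
    · rw [← e1] at hy2
      have h1 := dist_nr_le hG e2
      have h2 := pair_dist (h.adj _ hli) hx2 hy2
      omega

/-- `H` is a chain of at least two pairs. -/
def Paired (H : SimpleGraph W) : Prop := ∃ p q m, 2 ≤ m ∧ PairChain H p q m

/-- **The ideal property.** The product of a connected graph with a connected chain of at least
two pairs is again a chain of at least two pairs. -/
theorem paired_boxProd [Finite V] (hG : G.Connected) (hH : H.Connected) (h : Paired H) :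
    Paired (G □ H) := by
  obtain ⟨p, q, m, hm, h⟩ := h
  obtain ⟨a, b, hab⟩ := exists_layers hG m hm
  obtain ⟨n, f, -, -, hstep, hinj, hmem⟩ := hab.seq
  refine ⟨_, _, n + 1, ?_, pairChain_of_route hG hH h hstep hinj hmem⟩
  obtain ⟨v⟩ := hG.nonempty
  obtain ⟨i, hi, hfi⟩ := (hmem (v, 0)).1 (show 0 < m by omega)
  obtain ⟨j, hj, hfj⟩ := (hmem (v, 1)).1 (show 1 < m by omega)
  have : i ≠ j := by
    rintro rfl
    rw [hfi] at hfj
    simp at hfj
  omega

lemma Paired.stackable [Fintype W] (hH : H.Connected) (h : Paired H) : Stackable H := by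
  obtain ⟨p, q, m, -, h⟩ := h
  exact h.stackable hH

/-- The square of a graph: distinct vertices are adjacent if they are adjacent in the graph or
have a common neighbour. -/
def square (G : SimpleGraph V) : SimpleGraph V where
  Adj u v := u ≠ v ∧ (G.Adj u v ∨ ∃ w, G.Adj u w ∧ G.Adj w v)
  symm := ⟨fun _ _ h => ⟨h.1.symm, Nr.symm h.2⟩⟩
  loopless := ⟨fun _ h => h.1 rfl⟩

/-- the complete graph with two vertices -/
lemma chain_two : PairChain (⊤ : SimpleGraph Bool) (fun _ => false) (fun _ => true) 1 := by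
  refine ⟨?_, ?_, ?_, ?_, ?_, ?_, ?_⟩
  · intro i j hi hj _; omega
  · intro i j hi hj _; omega
  · simp
  · intro w
    exact ⟨0, by omega, by cases w <;> simp⟩
  · simp
  · intro i hi s
    cases s
    · rw [dist_self, dist_eq_one_iff_adj.2 (by simp)]; omega
    · rw [dist_self, dist_eq_one_iff_adj.2 (by simp)]; omega
  · intro i hi
    omega

/-- If the square of `G` has a Hamiltonian path, then `G □ K₂` is a chain of `|G|` pairs. -/
theorem chain_boxProd_square [Fintype V] (hG : G.Connected)
    (hs : Traceable (square G)) :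
    ∃ p q, PairChain (G □ (⊤ : SimpleGraph Bool)) p q (Fintype.card V) := by
  rw [traceable_iff] at hs
  obtain ⟨f, n, hf⟩ := hs
  have hcard := hf.card_eq
  obtain ⟨hn, hinj, hadj, hsurj⟩ := hf
  have := pairChain_of_route (n := n - 1) (f := fun i => (f i, 0))
    hG connected_top chain_two (by
      intro i hi
      exact Or.inr ⟨rfl, (hadj i (by omega)).2⟩) (by
      intro i j hi hj e
      simp only [Prod.mk.injEq, and_true] at e
      exact hinj i j (by omega) (by omega) e) (by
      rintro ⟨v, j⟩
      simp only [Set.mem_ofPred_eq, Prod.mk.injEq]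
      constructor
      · intro hj
        obtain ⟨i, hi, rfl⟩ := hsurj v
        exact ⟨i, by omega, rfl, by omega⟩
      · rintro ⟨i, -, -, e⟩
        omega)
  rw [show n - 1 + 1 = Fintype.card V by omega] at this
  exact ⟨_, _, this⟩

/-- A bipartite graph with a Hamiltonian path and an even number of vertices is a chain of
pairs. -/
theorem chain_of_traceable [Fintype W] (hc : H.Colorable 2) (hH : Traceable H)
    (he : Even (Fintype.card W)) :
    H.Connected ∧ ∃ p q, PairChain H p q (Fintype.card W / 2) := by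
  rw [traceable_iff] at hH
  obtain ⟨f, n, hf⟩ := hH
  have hcard := hf.card_eq
  obtain ⟨hn, hinj, hadj, hsurj⟩ := hf
  have hreach : ∀ i, i < n → H.Reachable (f 0) (f i) := by
    intro i
    induction i with
    | zero => exact fun _ => Reachable.refl _
    | succ i ih => exact fun hi => (ih (by omega)).trans (hadj i hi).reachable
  have hconn : H.Connected := (connected_iff_exists_forall_reachable H).2 ⟨f 0, fun w => by
    obtain ⟨i, hi, rfl⟩ := hsurj w
    exact hreach i hi⟩
  refine ⟨hconn, ?_⟩
  have hd : ∀ k i, i + k < n → H.dist (f i) (f (i + k)) ≤ k := by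
    intro k
    induction k with
    | zero => intro i _; simp
    | succ k ih =>
      intro i hi
      have h1 := ih i (by omega)
      have h2 := hconn.dist_triangle (u := f i) (v := f (i + k)) (w := f (i + k + 1))
      rw [dist_eq_one_iff_adj.2 (hadj (i + k) (by omega))] at h2
      rw [show i + (k + 1) = i + k + 1 by omega]
      omega
  have hd' : ∀ i j, i ≤ j → j ≤ i + 3 → j < n → H.dist (f i) (f j) ≤ 3 := by
    intro i j h1 h2 h3
    have := hd (j - i) i (by omega)
    rw [show i + (j - i) = j by omega] at this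
    omega
  obtain ⟨k, hk⟩ := he
  have hk2 : Fintype.card W / 2 = k := by omega
  rw [hk2]
  refine ⟨fun i => f (2 * i), fun i => f (2 * i + 1), ?_, ?_, ?_, ?_, ?_, ?_, ?_⟩
  · intro i j hi hj e
    have := hinj _ _ (by omega) (by omega) e
    omega
  · intro i j hi hj e
    have := hinj _ _ (by omega) (by omega) e
    omega
  · intro i j hi hj e
    have := hinj _ _ (by omega) (by omega) e
    omega
  · intro w
    obtain ⟨i, hi, rfl⟩ := hsurj w
    rcases Nat.even_or_odd' i with ⟨j, rfl | rfl⟩
    · exact ⟨j, by omega, Or.inl rfl⟩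
    · exact ⟨j, by omega, Or.inr rfl⟩
  · intro i hi
    exact hadj (2 * i) (by omega)
  · intro i hi s
    exact dist_ne_of_colorable hconn hc (hadj (2 * i) (by omega)) s
  · intro i hi x y hx hy
    rcases hx with rfl | rfl <;> rcases hy with rfl | rfl <;>
      exact hd' _ _ (by omega) (by omega) (by omega)

end Pool.Agent.Lib.MP_aac8f2_co
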