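import Pool.Agent.Lib.MP_aac8f2_co.Squares

/-!
# Products with a prism
-/

open SimpleGraph

namespace Pool.Agent.Lib.MP_aac8f2_co

variable {V W : Type*} {G : SimpleGraph V} {K : SimpleGraph W}

/-- routes in an induced subgraph -/
lemma RT.of_induce {m : ℕ} {S : Set V} {u v : S} {i j : Fin m}
    (h : RT (G.induce S) m Set.univ u i v j) : RT G m S u.val i v.val j := by
  have h2 := Rt.map (St' := Stp G m) (fun a : S × Fin m => (a.1.val, a.2)) (by
      rintro ⟨a, i⟩ ⟨b, j⟩ h
      simp only [Prod.mk.injEq] at h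
      exact Prod.ext (Subtype.ext h.1) h.2) (by
      rintro ⟨a, i⟩ ⟨b, j⟩ (⟨h1, h2⟩ | ⟨h1, h2⟩)
      · exact Or.inl ⟨congrArg Subtype.val h1, h2⟩
      · refine Or.inr ⟨h1, ?_⟩
        rcases h2 with h2 | ⟨w, h2, h3⟩
        · exact Or.inl h2
        · exact Or.inr ⟨w.val, h2, h3⟩) h
  refine Rt.congr h2 ?_
  ext ⟨a, k⟩
  constructor
  · rintro ⟨⟨b, l⟩, -, h⟩
    have e : b.val = a := congrArg Prod.fst h
    change a ∈ S
    rw [← e]
    exact b.2
  · intro ha
    exact ⟨(⟨a, ha⟩, k), Set.mem_univ _, rfl⟩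

/-- a neighbour in a nontrivial connected graph -/
lemma exists_nbr [Nontrivial V] (hG : G.Connected) (x : V) : ∃ y, G.Adj x y := by
  obtain ⟨z, hz⟩ := exists_ne x
  obtain ⟨p⟩ := hG.preconnected x z
  cases p with
  | nil => exact absurd rfl hz
  | cons h _ => exact ⟨_, h⟩

/-- a Hamiltonian path in the square of the product, as a sequence -/
def SeqQ (G : SimpleGraph V) (K : SimpleGraph W) (f : ℕ → V × W) (n : ℕ) : Prop :=
  (∀ i, i < n → StQ G K (f i) (f (i + 1))) ∧
  (∀ i j, i ≤ n → j ≤ n → f i = f j → i = j) ∧ ∀ z, ∃ i, i ≤ n ∧ f i = z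

/-- **Squares of products.** -/
theorem exists_seqQ [Finite V] [Finite W] [Nontrivial V] [Nontrivial W] (hG : G.Connected)
    (hK : K.Connected) : ∃ f n, SeqQ G K f n := by
  obtain ⟨x, hx⟩ := hG.exists_connected_induce_compl_singleton_of_finite_nontrivial
  obtain ⟨y, hxy⟩ := exists_nbr hG x
  have hyx : y ∈ ({x}ᶜ : Set V) := by
    simpa using hxy.ne.symm
  obtain ⟨O, hO, hu⟩ := exists_br hx ⟨y, hyx⟩
  have h2 := (two hO).1
  rw [hu] at h2
  by_cases hs : ∃ c, O = {c}
  · -- three vertices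
    obtain ⟨c, hc⟩ := hs
    have hyc : G.Adj y c.val := ((three hO).2.2.2.2 c hc).2
    have hcov : ∀ v, v = x ∨ v = y ∨ v = c.val := by
      intro v
      by_cases hv : v = x
      · exact Or.inl hv
      · right
        have : (⟨v, hv⟩ : ({x}ᶜ : Set V)) ∈ insert (⟨y, hyx⟩ : ({x}ᶜ : Set V)) O := by
          rw [hu]; exact Set.mem_univ _
        rw [hc] at this
        rcases this with h | h
        · left; exact congrArg Subtype.val h
        · right; exact congrArg Subtype.val h
    have hcx : c.val ≠ x := c.2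
    obtain ⟨a, b, hab⟩ := exists_layers hK 3 (by omega)
    obtain ⟨n, f, -, -, hstep, hinj, hmem⟩ := hab.seq
    have hlt : ∀ i, i ≤ n → (f i).2 < 3 := fun i hi => (hmem _).2 ⟨i, hi, rfl⟩
    let g : ℕ → V := fun i => if i = 0 then x else if i = 1 then y else c.val
    have hg : ∀ i, i + 1 < 3 → G.Adj (g i) (g (i + 1)) := by
      intro i hi
      have : i = 0 ∨ i = 1 := by omega
      rcases this with rfl | rfl
      · simpa [g] using hxy
      · simpa [g] using hyc
    have hginj : ∀ i j, i < 3 → j < 3 → g i = g j → i = j := by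
      intro i j hi hj h
      have hxy' := hxy.ne
      have hyc' := hyc.ne
      have hi' : i = 0 ∨ i = 1 ∨ i = 2 := by omega
      have hj' : j = 0 ∨ j = 1 ∨ j = 2 := by omega
      rcases hi' with rfl | rfl | rfl <;> rcases hj' with rfl | rfl | rfl <;>
        simp [g] at h ⊢
      · exact hxy' h
      · exact hcx h.symm
      · exact hxy' h.symm
      · exact hyc' h
      · exact hcx h
      · exact hyc' h.symm
    refine ⟨fun i => (g (f i).2, (f i).1), n, ?_, ?_, ?_⟩
    · intro i hi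
      rcases hstep i hi with ⟨e1, e2⟩ | ⟨e1, e2⟩
      · refine Or.inr (Or.inl ⟨e1, Or.inl ?_⟩)
        change G.Adj (g (f i).2) (g (f (i + 1)).2)
        rcases e2 with e2 | e2
        · rw [e2]
          exact hg _ (by rw [← e2]; exact hlt _ (by omega))
        · rw [e2]
          exact (hg _ (by rw [← e2]; exact hlt _ (by omega))).symm
      · refine Or.inl ⟨?_, e2⟩
        change g (f i).2 = g (f (i + 1)).2
        rw [e1]
    · intro i j hi hj h
      simp only [Prod.mk.injEq] at h
      exact hinj i j hi hj (Prod.ext h.2 (hginj _ _ (hlt i hi) (hlt j hj) h.1))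
    · rintro ⟨v, w⟩
      have : ∃ k, k < 3 ∧ g k = v := by
        rcases hcov v with rfl | rfl | rfl
        · exact ⟨0, by omega, by simp [g]⟩
        · exact ⟨1, by omega, by simp [g]⟩
        · exact ⟨2, by omega, by simp [g]⟩
      obtain ⟨k, hk, rfl⟩ := this
      obtain ⟨i, hi, hfi⟩ := (hmem (w, k)).1 hk
      exact ⟨i, hi, by simp only [hfi]⟩
  · have h3 := (three hO).1 hs
    rw [hu] at h3
    obtain ⟨b⟩ := hK.nonempty
    obtain ⟨B, hB, hBu⟩ := exists_br hK b
    have hne : B.Nonempty := by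
      obtain ⟨z, hz⟩ := exists_ne b
      have : z ∈ insert b B := by rw [hBu]; exact Set.mem_univ z
      rcases this with h | h
      · exact absurd h hz
      · exact ⟨z, h⟩
    have key := (main_SS (K := K) hxy (R := {x}ᶜ) (by simp) (fun v => by
      by_cases h : v = x
      · exact Or.inl h
      · exact Or.inr h) h2.of_induce h3.of_induce _ b B le_rfl hB hne).full hxy
    obtain ⟨n, f, -, -, hstep, hinj, hmem⟩ := key.seq
    refine ⟨f, n, hstep, hinj, fun z => (hmem z).1 ?_⟩
    change z.2 ∈ insert b B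
    rw [hBu]
    exact Set.mem_univ _

lemma StQ.dist_le (hG : G.Connected) (hK : K.Connected) {a b : V × W} (h : StQ G K a b) :
    G.dist a.1 b.1 + K.dist a.2 b.2 ≤ 2 := by
  rcases h with ⟨h1, h2⟩ | ⟨h1, h2⟩ | ⟨h1, h2⟩
  · rw [h1, SimpleGraph.dist_self, zero_add]
    exact dist_nr_le hK h2
  · rw [h1, SimpleGraph.dist_self, add_zero]
    exact dist_nr_le hG h2
  · rw [dist_eq_one_iff_adj.2 h1, dist_eq_one_iff_adj.2 h2]

lemma dist_top_le (a b : Bool) : (⊤ : SimpleGraph Bool).dist a b ≤ 1 := by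
  by_cases h : a = b
  · rw [h, SimpleGraph.dist_self]; omega
  · rw [dist_eq_one_iff_adj.2 (by simpa using h)]

/-- a Hamiltonian path in the square of `G □ K` gives a chain of pairs in `G □ (K □ K₂)` -/
theorem SeqQ.chain (hG : G.Connected) (hK : K.Connected) {f : ℕ → V × W} {n : ℕ}
    (h : SeqQ G K f n) : PairChain (G □ (K □ (⊤ : SimpleGraph Bool)))
      (fun i => ((f i).1, ((f i).2, false))) (fun i => ((f i).1, ((f i).2, true))) (n + 1) := by
  obtain ⟨hstep, hinj, hsurj⟩ := h
  have hT : (⊤ : SimpleGraph Bool).Connected := connected_top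
  have hKT : (K □ (⊤ : SimpleGraph Bool)).Connected := hK.boxProd hT
  have hd : ∀ x y : V × (W × Bool), (G □ (K □ (⊤ : SimpleGraph Bool))).dist x y =
      G.dist x.1 y.1 + (K.dist x.2.1 y.2.1 + (⊤ : SimpleGraph Bool).dist x.2.2 y.2.2) := by
    intro x y
    rw [dist_box hG hKT, dist_box hK hT]
  refine ⟨?_, ?_, ?_, ?_, ?_, ?_, ?_⟩
  · intro i j hi hj e
    simp only [Prod.mk.injEq, and_true] at e
    exact hinj i j (by omega) (by omega) (Prod.ext e.1 e.2)
  · intro i j hi hj e
    simp only [Prod.mk.injEq, and_true] at e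
    exact hinj i j (by omega) (by omega) (Prod.ext e.1 e.2)
  · intro i j hi hj e
    simp at e
  · rintro ⟨v, w, s⟩
    obtain ⟨i, hi, hf⟩ := hsurj (v, w)
    refine ⟨i, by omega, ?_⟩
    rw [hf]
    cases s
    · exact Or.inl rfl
    · exact Or.inr rfl
  · intro i hi
    simp [boxProd_adj]
  · intro i hi s e
    rw [hd, hd] at e
    have := chain_two.equi 0 (by omega) s.2.2
    simp only at e this
    omega
  · intro i hi x y hx hy
    rw [hd]
    have h1 := StQ.dist_le hG hK (hstep i (by omega))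
    have h2 := dist_top_le x.2.2 y.2.2
    have hx1 : x.1 = (f i).1 ∧ x.2.1 = (f i).2 := by
      rcases hx with rfl | rfl <;> exact ⟨rfl, rfl⟩
    have hy1 : y.1 = (f (i + 1)).1 ∧ y.2.1 = (f (i + 1)).2 := by
      rcases hy with rfl | rfl <;> exact ⟨rfl, rfl⟩
    rw [hx1.1, hx1.2, hy1.1, hy1.2]
    omega

/-- **Products with a prism.** For all connected graphs `G`, `K` with at least two vertices the
product `G □ (K □ K₂)` is a chain of at least two pairs. -/
theorem paired_prism [Finite V] [Finite W] [Nontrivial V] [Nontrivial W] (hG : G.Connected)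
    (hK : K.Connected) : Paired (G □ (K □ (⊤ : SimpleGraph Bool))) := by
  obtain ⟨f, n, h⟩ := exists_seqQ hG hK
  refine ⟨_, _, n + 1, ?_, h.chain hG hK⟩
  obtain ⟨v, v', hv⟩ := exists_pair_ne V
  obtain ⟨w⟩ := hK.nonempty
  obtain ⟨i, hi, hfi⟩ := h.2.2 (v, w)
  obtain ⟨j, hj, hfj⟩ := h.2.2 (v', w)
  have : i ≠ j := by
    rintro rfl
    rw [hfi] at hfj
    exact hv (congrArg Prod.fst hfj)
  omega

end Pool.Agent.Lib.MP_aac8f2_co
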