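import Mathlib

/-!
# Hamiltonian paths in products of the square of a connected graph with a path

For every finite connected graph `G` and every `m ≥ 2` the product of the square of `G` with
the path on `m` vertices has a Hamiltonian path.
-/

open SimpleGraph

namespace Pool.Agent.Lib.MP_aac8f2_co

/-- `Rt St s a b`: there is a path from `a` to `b` with steps in `St` which visits exactly the
elements of `s`, each of them once. -/
inductive Rt {α : Type*} (St : α → α → Prop) : Set α → α → α → Prop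
  | one (a : α) : Rt St {a} a a
  | cat {s t : Set α} {a b c d : α} : Rt St s a b → Rt St t c d → Disjoint s t → St b c →
      Rt St (s ∪ t) a d

section Rt

variable {α β : Type*} {St : α → α → Prop} {St' : β → β → Prop}

lemma Rt.congr {s t : Set α} {a b : α} (h : Rt St s a b) (e : s = t) : Rt St t a b := e ▸ h

lemma Rt.rev (hSt : ∀ a b, St a b → St b a) {s : Set α} {a b : α} (h : Rt St s a b) :
    Rt St s b a := by
  induction h with
  | one a => exact Rt.one a
  | cat _ _ hd hs ih1 ih2 =>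
    rw [Set.union_comm]
    exact Rt.cat ih2 ih1 hd.symm (hSt _ _ hs)

lemma Rt.map (f : α → β) (hf : Function.Injective f) (hst : ∀ a b, St a b → St' (f a) (f b))
    {s : Set α} {a b : α} (h : Rt St s a b) : Rt St' (f '' s) (f a) (f b) := by
  induction h with
  | one a => rw [Set.image_singleton]; exact Rt.one _
  | cat _ _ hd hs ih1 ih2 =>
    rw [Set.image_union]
    exact Rt.cat ih1 ih2 ((Set.disjoint_image_iff hf).2 hd) (hst _ _ hs)

/-- a path as a sequence -/
lemma Rt.seq {s : Set α} {a b : α} (h : Rt St s a b) : ∃ (n : ℕ) (f : ℕ → α), f 0 = a ∧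
    f n = b ∧ (∀ i, i < n → St (f i) (f (i + 1))) ∧
    (∀ i j, i ≤ n → j ≤ n → f i = f j → i = j) ∧ ∀ z, z ∈ s ↔ ∃ i, i ≤ n ∧ f i = z := by
  induction h with
  | one a =>
    refine ⟨0, fun _ => a, rfl, rfl, by omega, by omega, ?_⟩
    intro z
    simp only [Set.mem_singleton_iff]
    constructor
    · rintro rfl; exact ⟨0, le_rfl, rfl⟩
    · rintro ⟨_, _, rfl⟩; rfl
  | @cat s t a b c d _ _ hd hs ih1 ih2 =>
    obtain ⟨n, f, f0, fn, fs, fi, fm⟩ := ih1
    obtain ⟨m, g, g0, gm, gs, gi, gmem⟩ := ih2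
    have hlo : ∀ i, i ≤ n → (if i ≤ n then f i else g (i - n - 1)) = f i :=
      fun i hi => if_pos hi
    have hhi : ∀ i, n < i → (if i ≤ n then f i else g (i - n - 1)) = g (i - n - 1) :=
      fun i hi => if_neg (by omega)
    refine ⟨n + m + 1, fun i => if i ≤ n then f i else g (i - n - 1), ?_, ?_, ?_, ?_, ?_⟩
    · simp [f0]
    · simp only
      rw [hhi _ (by omega), show n + m + 1 - n - 1 = m by omega, gm]
    · intro i hi
      simp only
      rcases lt_trichotomy i n with h1 | h1 | h1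
      · rw [hlo i (by omega), hlo (i + 1) (by omega)]; exact fs i h1
      · subst h1
        rw [hlo i le_rfl, hhi (i + 1) (by omega), show i + 1 - i - 1 = 0 by omega, fn, g0]
        exact hs
      · rw [hhi i h1, hhi (i + 1) (by omega), show i + 1 - n - 1 = (i - n - 1) + 1 by omega]
        exact gs _ (by omega)
    · have hcross : ∀ i j, i ≤ n → j ≤ m → f i ≠ g j := by
        intro i j hi hj e
        have h1 : f i ∈ s := (fm _).2 ⟨i, hi, rfl⟩
        have h2 : f i ∈ t := (gmem _).2 ⟨j, hj, e.symm⟩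
        exact Set.disjoint_left.1 hd h1 h2
      intro i j hi hj e
      simp only at e
      by_cases h1 : i ≤ n <;> by_cases h2 : j ≤ n
      · rw [hlo i h1, hlo j h2] at e; exact fi _ _ h1 h2 e
      · rw [hlo i h1, hhi j (by omega)] at e; exact absurd e (hcross _ _ h1 (by omega))
      · rw [hhi i (by omega), hlo j h2] at e; exact absurd e.symm (hcross _ _ h2 (by omega))
      · rw [hhi i (by omega), hhi j (by omega)] at e
        have := gi _ _ (by omega) (by omega) e
        omega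
    · intro z
      simp only [Set.mem_union]
      constructor
      · rintro (hz | hz)
        · obtain ⟨i, hi, rfl⟩ := (fm z).1 hz
          exact ⟨i, by omega, hlo i hi⟩
        · obtain ⟨i, hi, rfl⟩ := (gmem z).1 hz
          exact ⟨n + 1 + i, by omega, by
            rw [hhi _ (by omega), show n + 1 + i - n - 1 = i by omega]⟩
      · rintro ⟨i, hi, rfl⟩
        by_cases h1 : i ≤ n
        · left; rw [hlo i h1]; exact (fm _).2 ⟨i, h1, rfl⟩
        · right; rw [hhi i (by omega)]; exact (gmem _).2 ⟨_, by omega, rfl⟩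

end Rt

variable {V : Type*} {G : SimpleGraph V}

/-- adjacent or with a common neighbour -/
def Nr (G : SimpleGraph V) (u v : V) : Prop := G.Adj u v ∨ ∃ w, G.Adj u w ∧ G.Adj w v

lemma Nr.symm {u v : V} (h : Nr G u v) : Nr G v u := by
  rcases h with h | ⟨w, h1, h2⟩
  · exact Or.inl h.symm
  · exact Or.inr ⟨w, h2.symm, h1.symm⟩

/-- two neighbours of `x` are near -/
lemma nr_of {x u v : V} (hu : G.Adj x u) (hv : G.Adj x v) : Nr G u v := Or.inr ⟨x, hu.symm, hv⟩

/-- forests hanging at `x`: `Br G x O` says that `insert x O` is a tree with root `x` -/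
inductive Br (G : SimpleGraph V) : V → Set V → Prop
  | nil (x : V) : Br G x ∅
  | add {x y : V} {O C : Set V} : Br G x O → Br G y C → G.Adj x y →
      Disjoint O (insert y C) → x ∉ insert y C → Br G x (O ∪ insert y C)

lemma Br.not_mem {x : V} {O : Set V} (h : Br G x O) : x ∉ O := by
  induction h with
  | nil x => simp
  | add _ _ _ _ hx ih _ =>
    rintro (h | h)
    · exact ih h
    · exact hx h

/-- steps in the product of the square of `G` with the path on `m` vertices -/
def Stp (G : SimpleGraph V) (m : ℕ) (a b : V × Fin m) : Prop :=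
  (a.1 = b.1 ∧ (b.2.val = a.2.val + 1 ∨ a.2.val = b.2.val + 1)) ∨ (a.2 = b.2 ∧ Nr G a.1 b.1)

lemma Stp.symm {m : ℕ} (a b : V × Fin m) (h : Stp G m a b) : Stp G m b a := by
  rcases h with ⟨h1, h2⟩ | ⟨h1, h2⟩
  · exact Or.inl ⟨h1.symm, h2.symm⟩
  · exact Or.inr ⟨h1.symm, h2.symm⟩

/-- all layers over `O` -/
def LL (m : ℕ) (O : Set V) : Set (V × Fin m) := {a | a.1 ∈ O}

lemma LL_union (m : ℕ) (O O' : Set V) : LL m (O ∪ O') = LL m O ∪ LL m O' := rfl

lemma LL_disj {m : ℕ} {O O' : Set V} (h : Disjoint O O') : Disjoint (LL m O) (LL m O') :=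
  Set.disjoint_left.2 fun _ h1 h2 => Set.disjoint_left.1 h h1 h2

/-- reversal of the order of the layers -/
def flip (m : ℕ) (a : V × Fin m) : V × Fin m := (a.1, a.2.rev)

lemma flip_inj (m : ℕ) : Function.Injective (flip m : V × Fin m → V × Fin m) := by
  rintro ⟨a, i⟩ ⟨b, j⟩ h
  simp only [flip, Prod.mk.injEq, Fin.rev_inj] at h
  exact Prod.ext h.1 h.2

lemma flip_step {m : ℕ} (a b : V × Fin m) (h : Stp G m a b) : Stp G m (flip m a) (flip m b) := by
  rcases h with ⟨h1, h2⟩ | ⟨h1, h2⟩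
  · left
    refine ⟨h1, ?_⟩
    simp only [flip, Fin.val_rev]
    have := a.2.2; have := b.2.2
    omega
  · exact Or.inr ⟨by simp only [flip]; rw [h1], h2⟩

lemma flip_LL (m : ℕ) (O : Set V) : flip m '' LL m O = LL m O := by
  ext ⟨a, i⟩
  simp only [LL, Set.mem_image, Set.mem_ofPred_eq, flip, Prod.mk.injEq, Prod.exists]
  constructor
  · rintro ⟨b, j, hb, rfl, rfl⟩; exact hb
  · intro ha; exact ⟨a, i.rev, ha, rfl, Fin.rev_rev i⟩

/-- a route over all layers of `O` -/
def RT (G : SimpleGraph V) (m : ℕ) (O : Set V) (u : V) (i : Fin m) (v : V) (j : Fin m) : Prop :=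
  Rt (Stp G m) (LL m O) (u, i) (v, j)

lemma RT.flip {m : ℕ} {O : Set V} {u v : V} {i j : Fin m} (h : RT G m O u i v j) :
    RT G m O u i.rev v j.rev := by
  have := Rt.map (St' := Stp G m) (Pool.Agent.Lib.MP_aac8f2_co.flip m) (flip_inj m) flip_step h
  rw [flip_LL] at this
  exact this

lemma RT.rev {m : ℕ} {O : Set V} {u v : V} {i j : Fin m} (h : RT G m O u i v j) :
    RT G m O v j u i := Rt.rev Stp.symm h

lemma RT.cat {m : ℕ} {O O' : Set V} {u v w z : V} {i j k : Fin m} (h : RT G m O u i v j)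
    (h' : RT G m O' w j z k) (hn : Nr G v w) (hd : Disjoint O O') :
    RT G m (O ∪ O') u i z k :=
  Rt.cat h h' (LL_disj hd) (Or.inr ⟨rfl, hn⟩)

/-- a route with both ends adjacent to `x` -/
def TT (G : SimpleGraph V) (m : ℕ) (x : V) (O : Set V) (i j : Fin m) : Prop :=
  ∃ y z, G.Adj x y ∧ G.Adj x z ∧ RT G m O y i z j

/-- a route with start near `x` and end adjacent to `x` -/
def NN (G : SimpleGraph V) (m : ℕ) (x : V) (O : Set V) (i j : Fin m) : Prop :=
  ∃ y z, Nr G x y ∧ G.Adj x z ∧ RT G m O y i z j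

lemma TT.nn {m : ℕ} {x : V} {O : Set V} {i j : Fin m} (h : TT G m x O i j) : NN G m x O i j := by
  obtain ⟨y, z, h1, h2, h3⟩ := h
  exact ⟨y, z, Or.inl h1, h2, h3⟩

lemma TT.flip {m : ℕ} {x : V} {O : Set V} {i j : Fin m} (h : TT G m x O i j) :
    TT G m x O i.rev j.rev := by
  obtain ⟨y, z, h1, h2, h3⟩ := h
  exact ⟨y, z, h1, h2, h3.flip⟩

lemma TT.rev {m : ℕ} {x : V} {O : Set V} {i j : Fin m} (h : TT G m x O i j) :
    TT G m x O j i := by
  obtain ⟨y, z, h1, h2, h3⟩ := h
  exact ⟨z, y, h2, h1, h3.rev⟩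

lemma TT.cat {m : ℕ} {x : V} {O O' : Set V} {i j k : Fin m} (h : TT G m x O i j)
    (h' : TT G m x O' j k) (hd : Disjoint O O') : TT G m x (O ∪ O') i k := by
  obtain ⟨y, z, h1, h2, h3⟩ := h
  obtain ⟨y', z', h1', h2', h3'⟩ := h'
  exact ⟨y, z', h1, h2', h3.cat h3' (nr_of h2 h1') hd⟩

lemma TT.cat' {m : ℕ} {x : V} {O O' : Set V} {i j k : Fin m} (h : TT G m x O i j)
    (h' : TT G m x O' j k) (hd : Disjoint O O') : TT G m x (O' ∪ O) i k := by
  rw [Set.union_comm]; exact h.cat h' hd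

lemma NN.cat {m : ℕ} {x : V} {O O' : Set V} {i j k : Fin m} (h : NN G m x O i j)
    (h' : TT G m x O' j k) (hd : Disjoint O O') : NN G m x (O ∪ O') i k := by
  obtain ⟨y, z, h1, h2, h3⟩ := h
  obtain ⟨y', z', h1', h2', h3'⟩ := h'
  exact ⟨y, z', h1, h2', h3.cat h3' (nr_of h2 h1') hd⟩

/-- the step from one layer to the next over `x`, as a union -/
lemma Rt.vert {m : ℕ} {s t : Set (V × Fin m)} {a d : V × Fin m} {x : V} {i j : Fin m}
    (h : Rt (Stp G m) s a (x, i)) (h' : Rt (Stp G m) t (x, j) d) (hd : Disjoint s t)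
    (hij : j.val = i.val + 1 ∨ i.val = j.val + 1) : Rt (Stp G m) (s ∪ t) a d :=
  Rt.cat h h' hd (Or.inl ⟨rfl, hij⟩)

/-- a step inside a layer -/
lemma Rt.hor {m : ℕ} {s t : Set (V × Fin m)} {a d : V × Fin m} {x y : V} {i : Fin m}
    (h : Rt (Stp G m) s a (x, i)) (h' : Rt (Stp G m) t (y, i) d) (hd : Disjoint s t)
    (hn : Nr G x y) : Rt (Stp G m) (s ∪ t) a d :=
  Rt.cat h h' hd (Or.inr ⟨rfl, hn⟩)

end Pool.Agent.Lib.MP_aac8f2_co
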