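import Pool.Agent.Lib.MP_aac8f2_co.Prisms

/-!
# Stacking the square of a graph and stacking the prism
-/

open SimpleGraph Relation

namespace Pool.Agent.Lib.MP_aac8f2_co

variable {V : Type*} {G : SimpleGraph V}

/-- distances in the square -/
lemma dist_square (hG : G.Connected) (u v : V) :
    (square G).dist u v = (G.dist u v + 1) / 2 := by
  have hle : ∀ n : ℕ, ∀ u v : V, G.dist u v ≤ n →
      ∃ p : (square G).Walk u v, p.length ≤ (G.dist u v + 1) / 2 := by
    intro n
    induction n using Nat.strong_induction_on with
    | _ n ih =>
    intro u v hn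
    obtain ⟨p, hp⟩ := hG.exists_walk_length_eq_dist u v
    cases p with
    | nil => exact ⟨Walk.nil, by simp⟩
    | @cons _ w _ h q =>
      cases q with
      | nil =>
        refine ⟨Walk.cons (⟨h.ne, Or.inl h⟩ : (square G).Adj u v) Walk.nil, ?_⟩
        simp only [Walk.length_cons, Walk.length_nil] at hp ⊢
        omega
      | @cons _ w' _ h' q' =>
        simp only [Walk.length_cons] at hp
        have h1 : G.dist w' v ≤ q'.length := dist_le q'
        have h2 : G.dist u v ≤ G.dist u w' + G.dist w' v := hG.dist_triangle
        have h3 : G.dist u w' ≤ 2 := by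
          have := dist_le (Walk.cons h (Walk.cons h' Walk.nil))
          simpa using this
        have hne : u ≠ w' := by
          rintro rfl
          omega
        obtain ⟨r, hr⟩ := ih (G.dist w' v) (by omega) w' v le_rfl
        refine ⟨Walk.cons (⟨hne, Or.inr ⟨w, h, h'⟩⟩ : (square G).Adj u w') r, ?_⟩
        simp only [Walk.length_cons]
        omega
  have hge : ∀ u v : V, ∀ p : (square G).Walk u v, G.dist u v ≤ 2 * p.length := by
    intro u v p
    induction p with
    | nil => simp
    | @cons a b c h q ih =>
      have h1 : G.dist a b ≤ 2 := dist_nr_le hG h.2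
      have h2 : G.dist a c ≤ G.dist a b + G.dist b c := hG.dist_triangle
      simp only [Walk.length_cons]
      omega
  obtain ⟨p, hp⟩ := hle _ u v le_rfl
  have h1 := (dist_le p).trans hp
  have hreach : (square G).Reachable u v := ⟨p⟩
  obtain ⟨q, hq⟩ := hreach.exists_walk_length_eq_dist
  have h2 := hge u v q
  omega

/-- The configuration of the prism which belongs to a configuration `C` of the square and to
a choice `σ` of sides. -/
def lift2 (C : V → ℕ) (σ : V → Bool) : V × Bool → ℕ := fun z =>
  if C z.1 = 0 then 0 else if z.2 = σ z.1 then 2 * C z.1 - 1 else 1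

lemma lift2_zero {C : V → ℕ} {σ : V → Bool} {v : V} {t : Bool} (h : C v = 0) :
    lift2 C σ (v, t) = 0 := by
  simp [lift2, h]

lemma lift2_side {C : V → ℕ} {σ : V → Bool} {v : V} (h : 1 ≤ C v) :
    lift2 C σ (v, σ v) = 2 * C v - 1 := by
  have : C v ≠ 0 := by omega
  simp [lift2, this]

lemma lift2_other {C : V → ℕ} {σ : V → Bool} {v : V} {t : Bool} (h : 1 ≤ C v)
    (ht : t ≠ σ v) : lift2 C σ (v, t) = 1 := by
  have : C v ≠ 0 := by omega
  simp [lift2, this, ht]

lemma dist_top_eq (a b : Bool) : (⊤ : SimpleGraph Bool).dist a b = if a = b then 0 else 1 := by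
  split_ifs with h
  · rw [h, SimpleGraph.dist_self]
  · exact dist_eq_one_iff_adj.2 (by simpa using h)

lemma not_ne (a : Bool) : (!a) ≠ a := by cases a <;> simp

/-- **Stackable squares.** If the square of a connected graph `G` is stackable, then so is
`G □ K₂`. -/
theorem stackable_prism [Fintype V] (hG : G.Connected) (hs : Stackable (square G)) :
    Stackable (G □ (⊤ : SimpleGraph Bool)) := by
  classical
  have hT : (⊤ : SimpleGraph Bool).Connected := connected_top
  rintro ⟨r, s⟩
  have hr := hs r
  unfold StackableAt at hr ⊢
  have key : ∀ C C' : V → ℕ, ReflTransGen (Move (square G)) C C' →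
      (C' = fun w => if w = r then Fintype.card V else 0) →
      ∃ σ : V → Bool, ReflTransGen (Move (G □ (⊤ : SimpleGraph Bool))) (lift2 C σ)
        (fun w => if w = (r, s) then Fintype.card (V × Bool) else 0) := by
    intro C C' h hC'
    induction h using ReflTransGen.head_induction_on with
    | refl =>
      have hpos : 0 < Fintype.card V := Fintype.card_pos_iff.2 ⟨r⟩
      have hCr : C' r = Fintype.card V := by rw [hC']; simp
      have hC0 : ∀ w, w ≠ r → C' w = 0 := by intro w hw; rw [hC']; simp [hw]
      have e1 : lift2 C' (fun _ => s) (r, !s) = 1 := lift2_other (by omega) (not_ne s)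
      have e2 : lift2 C' (fun _ => s) (r, s) = 2 * C' r - 1 :=
        lift2_side (σ := fun _ => s) (by omega)
      refine ⟨fun _ => s, ReflTransGen.single ⟨(r, !s), (r, s), by omega, by omega, ?_, ?_⟩⟩
      · rw [e1, dist_box hG hT]
        simp only [SimpleGraph.dist_self, zero_add]
        rw [dist_top_eq, if_neg (not_ne s)]
      · rw [e1, e2]
        funext ⟨v, t⟩
        have hcard : Fintype.card (V × Bool) = 2 * Fintype.card V := by
          rw [Fintype.card_prod, Fintype.card_bool, mul_comm]
        rw [hcard, hCr]
        by_cases hv : v = r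
        · subst hv
          by_cases ht : t = s
          · subst ht
            rw [if_pos rfl, if_neg (fun h => not_ne t (congrArg Prod.snd h).symm), if_pos rfl]
            omega
          · have ht' : t = !s := by cases t <;> cases s <;> simp_all
            rw [if_neg (fun h => ht (congrArg Prod.snd h)), if_pos (by rw [ht'])]
        · rw [if_neg (fun h => hv (congrArg Prod.fst h)),
            if_neg (fun h => hv (congrArg Prod.fst h)),
            if_neg (fun h => hv (congrArg Prod.fst h)), lift2_zero (hC0 v hv)]
    | @head C D hCD _ ih =>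
      obtain ⟨σ, hσ⟩ := ih
      obtain ⟨u, v, hu, hv, hd, hD⟩ := hCD
      rw [dist_square hG] at hd
      have huv : u ≠ v := by
        rintro rfl
        rw [SimpleGraph.dist_self] at hd
        omega
      obtain ⟨τ, hτ⟩ : ∃ τ : V → Bool, τ = fun w => if w = u then
        (if G.dist u v % 2 = 0 then σ v else !σ v) else σ w := ⟨_, rfl⟩
      have hτw : ∀ w, w ≠ u → τ w = σ w := by intro w hw; rw [hτ]; simp [hw]
      have hτv : τ v = σ v := hτw v huv.symm
      have hτu : τ u = if G.dist u v % 2 = 0 then σ v else !σ v := by rw [hτ]; simp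
      have hDu : D u = 0 := by rw [hD]; simp
      have hDv : D v = C u + C v := by rw [hD]; simp [huv.symm]
      have hDw : ∀ w, w ≠ u → w ≠ v → D w = C w := by
        intro w h1 h2; rw [hD]; simp [h1, h2]
      have hlift : lift2 D τ = lift2 D σ := by
        funext ⟨w, t⟩
        by_cases hw : w = u
        · subst hw
          rw [lift2_zero hDu, lift2_zero hDu]
        · simp [lift2, hτw w hw]
      have eu1 : lift2 C τ (u, !τ u) = 1 := lift2_other hu (not_ne _)
      have eu2 : lift2 C τ (u, τ u) = 2 * C u - 1 := lift2_side hu
      have ev : lift2 C τ (v, τ v) = 2 * C v - 1 := lift2_side hv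
      obtain ⟨M, hM⟩ : ∃ M : V × Bool → ℕ, M = fun w => if w = (u, !τ u) then 0
        else if w = (u, τ u) then lift2 C τ (u, !τ u) + lift2 C τ (u, τ u)
            else lift2 C τ w := ⟨_, rfl⟩
      have hne : ∀ {w w' : V} {t t' : Bool}, w ≠ w' → (w, t) ≠ (w', t') :=
        fun h h' => h (congrArg Prod.fst h')
      have hne' : (u, τ u) ≠ (u, !τ u) := fun h => not_ne _ (congrArg Prod.snd h).symm
      have hM1 : M (u, !τ u) = 0 := by rw [hM]; simp
      have hM2 : M (u, τ u) = 2 * C u := by
        rw [hM]
        simp only [if_neg hne', if_true, eu1, eu2]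
        omega
      have hM3 : ∀ w t, w ≠ u → M (w, t) = lift2 C τ (w, t) := by
        intro w t hw
        rw [hM]
        simp only [if_neg (hne hw)]
      refine ⟨τ, ?_⟩
      have m1 : Move (G □ (⊤ : SimpleGraph Bool)) (lift2 C τ) M := by
        refine ⟨(u, !τ u), (u, τ u), by omega, by omega, ?_, ?_⟩
        · rw [eu1, dist_box hG hT]
          simp only [SimpleGraph.dist_self, zero_add]
          rw [dist_top_eq, if_neg (not_ne _)]
        · rw [hM]
          funext w
          congr
      have hMv : M (v, τ v) = 2 * C v - 1 := by rw [hM3 _ _ huv.symm, ev]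
      have m2 : Move (G □ (⊤ : SimpleGraph Bool)) M (lift2 D τ) := by
        refine ⟨(u, τ u), (v, τ v), by omega, by omega, ?_, ?_⟩
        · rw [hM2, dist_box hG hT, dist_top_eq]
          simp only
          rw [hτv, hτu]
          rcases Nat.mod_two_eq_zero_or_one (G.dist u v) with h | h
          · rw [if_pos h, if_pos rfl]
            omega
          · have h' : ¬ G.dist u v % 2 = 0 := by omega
            rw [if_neg h', if_neg (not_ne _)]
            omega
        · rw [hM2, hMv]
          funext ⟨w, t⟩
          by_cases hwu : w = u
          · subst hwu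
            rw [lift2_zero hDu]
            by_cases ht : t = τ w
            · rw [if_pos (by rw [ht])]
            · have ht' : t = !τ w := by cases h1 : τ w <;> cases t <;> simp_all
              rw [if_neg (fun h => ht (congrArg Prod.snd h)), if_neg (hne huv), ht', hM1]
          · by_cases hwv : w = v
            · subst hwv
              by_cases ht : t = τ w
              · subst ht
                rw [if_neg (hne hwu), if_pos rfl, lift2_side (by omega), hDv]
                omega
              · rw [if_neg (hne hwu), if_neg (fun h => ht (congrArg Prod.snd h)),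
                  hM3 _ _ hwu, lift2_other (by omega) ht, lift2_other hv ht]
            · rw [if_neg (hne hwu), if_neg (hne hwv), hM3 _ _ hwu]
              simp only [lift2, hDw w hwu hwv]
      rw [← hlift] at hσ
      exact ReflTransGen.head m1 (ReflTransGen.head m2 hσ)
  obtain ⟨σ, hσ⟩ := key _ _ hr (by funext w; congr)
  have hstart : lift2 (fun _ : V => 1) σ = fun _ => 1 := by
    funext z
    simp [lift2]
  rw [hstart] at hσ
  convert hσ

end Pool.Agent.Lib.MP_aac8f2_co
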