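import Pool.Agent.Lib.MP_aac8f2_co.PairsProd

/-!
# The square of a product of two connected graphs has a Hamiltonian path
-/

open SimpleGraph

namespace Pool.Agent.Lib.MP_aac8f2_co

variable {V W : Type*} {G : SimpleGraph V} {K : SimpleGraph W}

/-- steps in the square of a product -/
def StQ (G : SimpleGraph V) (K : SimpleGraph W) (a b : V × W) : Prop :=
  (a.1 = b.1 ∧ Nr K a.2 b.2) ∨ (a.2 = b.2 ∧ Nr G a.1 b.1) ∨ (G.Adj a.1 b.1 ∧ K.Adj a.2 b.2)

lemma StQ.symm (a b : V × W) (h : StQ G K a b) : StQ G K b a := by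
  rcases h with ⟨h1, h2⟩ | ⟨h1, h2⟩ | ⟨h1, h2⟩
  · exact Or.inl ⟨h1.symm, h2.symm⟩
  · exact Or.inr (Or.inl ⟨h1.symm, h2.symm⟩)
  · exact Or.inr (Or.inr ⟨h1.symm, h2.symm⟩)

/-- Layers are replaced by sets of vertices of `K`. -/
def blow {m : ℕ} (Lay : Fin m → Set W) (S : Set (V × Fin m)) : Set (V × W) :=
  {z | ∃ j, (z.1, j) ∈ S ∧ z.2 ∈ Lay j}

lemma blow_route {m : ℕ} (Lay : Fin m → Set W) (e : Fin m → Bool → W)
    (hL : ∀ j, Rt (Nr K) (Lay j) (e j false) (e j true))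
    (hdis : ∀ i j k, k ∈ Lay i → k ∈ Lay j → i = j)
    (hver : ∀ i j : Fin m, (j.val = i.val + 1 ∨ i.val = j.val + 1) →
      ∀ s t, Nr K (e i s) (e j t))
    {S : Set (V × Fin m)} {a b : V × Fin m} (h : Rt (Stp G m) S a b) :
    ∀ s : Bool, ∃ t : Bool, Rt (StQ G K) (blow Lay S) (a.1, e a.2 s) (b.1, e b.2 t) := by
  induction h with
  | one a =>
    intro s
    refine ⟨!s, ?_⟩
    have h1 : Rt (Nr K) (Lay a.2) (e a.2 s) (e a.2 (!s)) := by
      cases s
      · exact hL a.2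
      · exact Rt.rev (fun _ _ => Nr.symm) (hL a.2)
    have h2 := Rt.map (St' := StQ G K) (fun k => (a.1, k)) (fun k l h => by simpa using h)
      (fun k l h => Or.inl ⟨rfl, h⟩) h1
    refine Rt.congr h2 ?_
    obtain ⟨u, i⟩ := a
    ext ⟨v, k⟩
    simp only [Set.mem_image, Prod.mk.injEq, blow, Set.mem_ofPred_eq, Set.mem_singleton_iff]
    constructor
    · rintro ⟨k', hk', rfl, rfl⟩
      exact ⟨i, ⟨rfl, rfl⟩, hk'⟩
    · rintro ⟨j, ⟨rfl, rfl⟩, hk⟩
      exact ⟨k, hk, rfl, rfl⟩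
  | @cat S T a b c d h1 h2 hd hs ih1 ih2 =>
    intro s
    obtain ⟨t, ht⟩ := ih1 s
    obtain ⟨t', ht'⟩ := ih2 t
    refine ⟨t', Rt.congr (Rt.cat ht ht' ?_ ?_) ?_⟩
    · rw [Set.disjoint_left]
      rintro z ⟨j, hj, hk⟩ ⟨j', hj', hk'⟩
      have := hdis _ _ _ hk hk'
      subst this
      exact Set.disjoint_left.1 hd hj hj'
    · rcases hs with ⟨e1, e2⟩ | ⟨e1, e2⟩
      · exact Or.inl ⟨e1, hver _ _ e2 t t⟩
      · exact Or.inr (Or.inl ⟨by simp only [e1], e2⟩)
    · ext z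
      simp only [blow, Set.mem_union, Set.mem_ofPred_eq]
      constructor
      · rintro (⟨j, hj, hk⟩ | ⟨j, hj, hk⟩)
        · exact ⟨j, Or.inl hj, hk⟩
        · exact ⟨j, Or.inr hj, hk⟩
      · rintro ⟨j, hj | hj, hk⟩
        · exact Or.inl ⟨j, hj, hk⟩
        · exact Or.inr ⟨j, hj, hk⟩

/-- two layers, the second one blown up -/
lemma core2 {R : Set V} {y : V} (h2 : RT G 2 R y 0 y 1) {b l l' : W} {L : Set W}
    (hL : Rt (Nr K) L l l') (hb : b ∉ L) (h1 : K.Adj b l) (h1' : K.Adj b l') :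
    ∃ k k', ((k = l ∧ k' = l') ∨ (k = l' ∧ k' = l)) ∧
      Rt (StQ G K) {z : V × W | z.1 ∈ R ∧ (z.2 = b ∨ z.2 ∈ L)} (y, b) (y, k) := by
  obtain ⟨t, ht⟩ := blow_route (K := K) (fun j : Fin 2 => if j.val = 0 then {b} else L)
    (fun j s => if j.val = 0 then b else if s then l' else l)
    (by
      intro j
      fin_cases j
      · exact Rt.one b
      · simpa using hL)
    (by
      intro i j k hi hj
      fin_cases i <;> fin_cases j <;> simp_all)
    (by
      intro i j hij s t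
      fin_cases i <;> fin_cases j <;> simp at hij ⊢ <;> cases s <;> cases t <;>
        simp [Nr, h1, h1', h1.symm, h1'.symm])
    h2 false
  have hset : blow (fun j : Fin 2 => if j.val = 0 then {b} else L) (LL 2 R) =
      {z : V × W | z.1 ∈ R ∧ (z.2 = b ∨ z.2 ∈ L)} := by
    ext ⟨v, k⟩
    simp only [blow, LL, Set.mem_ofPred_eq]
    constructor
    · rintro ⟨j, hj, hk⟩
      refine ⟨hj, ?_⟩
      fin_cases j
      · left; simpa using hk
      · right; simpa using hk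
    · rintro ⟨hv, rfl | hk⟩
      · exact ⟨0, hv, by simp⟩
      · exact ⟨1, hv, by simpa using hk⟩
  rw [hset] at ht
  cases t
  · exact ⟨l, l', Or.inl ⟨rfl, rfl⟩, by simpa using ht⟩
  · exact ⟨l', l, Or.inr ⟨rfl, rfl⟩, by simpa using ht⟩

/-- three layers, the last one blown up -/
lemma core3 {R : Set V} {y : V} (h3 : RT G 3 R y 0 y 2) {b c l l' : W} {L : Set W}
    (hL : Rt (Nr K) L l l') (hb : b ∉ L) (hc : c ∉ L) (hbc : K.Adj b c) (h1 : K.Adj c l)
    (h1' : K.Adj c l') :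
    ∃ k k', ((k = l ∧ k' = l') ∨ (k = l' ∧ k' = l)) ∧
      Rt (StQ G K) {z : V × W | z.1 ∈ R ∧ (z.2 = b ∨ z.2 = c ∨ z.2 ∈ L)} (y, b) (y, k) := by
  have hne := hbc.ne
  obtain ⟨t, ht⟩ := blow_route (K := K)
    (fun j : Fin 3 => if j.val = 0 then {b} else if j.val = 1 then {c} else L)
    (fun j s => if j.val = 0 then b else if j.val = 1 then c else if s then l' else l)
    (by
      intro j
      fin_cases j
      · exact Rt.one b
      · exact Rt.one c
      · simpa using hL)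
    (by
      intro i j k hi hj
      fin_cases i <;> fin_cases j <;> simp_all)
    (by
      intro i j hij s t
      fin_cases i <;> fin_cases j <;> simp at hij ⊢ <;> cases s <;> cases t <;>
        simp [Nr, h1, h1', h1.symm, h1'.symm, hbc, hbc.symm])
    h3 false
  have hset : blow (fun j : Fin 3 => if j.val = 0 then {b} else if j.val = 1 then {c} else L)
      (LL 3 R) = {z : V × W | z.1 ∈ R ∧ (z.2 = b ∨ z.2 = c ∨ z.2 ∈ L)} := by
    ext ⟨v, k⟩
    simp only [blow, LL, Set.mem_ofPred_eq]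
    constructor
    · rintro ⟨j, hj, hk⟩
      refine ⟨hj, ?_⟩
      fin_cases j
      · left; simpa using hk
      · right; left; simpa using hk
      · right; right; simpa using hk
    · rintro ⟨hv, rfl | rfl | hk⟩
      · exact ⟨0, hv, by simp⟩
      · exact ⟨1, hv, by simp⟩
      · exact ⟨2, hv, by simpa using hk⟩
  rw [hset] at ht
  cases t
  · exact ⟨l, l', Or.inl ⟨rfl, rfl⟩, by simpa using ht⟩
  · exact ⟨l', l, Or.inr ⟨rfl, rfl⟩, by simpa using ht⟩

lemma fibre (x : V) {L : Set W} {l l' : W} (hL : Rt (Nr K) L l l') :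
    Rt (StQ G K) {z : V × W | z.1 = x ∧ z.2 ∈ L} (x, l) (x, l') := by
  have h2 := Rt.map (St' := StQ G K) (fun k => (x, k)) (fun k l h => by simpa using h)
    (fun k l h => Or.inl ⟨rfl, h⟩) hL
  refine Rt.congr h2 ?_
  ext ⟨v, k⟩
  simp only [Set.mem_image, Prod.mk.injEq, Set.mem_ofPred_eq]
  constructor
  · rintro ⟨k', hk', rfl, rfl⟩
    exact ⟨rfl, hk'⟩
  · rintro ⟨rfl, hk⟩
    exact ⟨k, hk, rfl, rfl⟩

/-- unions of branches with a given property -/
inductive BB (K : SimpleGraph W) (P : W → Set W → Prop) : W → Set W → Prop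
  | nil (b : W) : BB K P b ∅
  | add {b c : W} {O C : Set W} : BB K P b O → P c C → K.Adj b c →
      Disjoint O (insert c C) → b ∉ insert c C → BB K P b (O ∪ insert c C)

lemma BB.mono {P Q : W → Set W → Prop} {b : W} {O : Set W} (h : BB K P b O) :
    (∀ c C, P c C → insert c C ⊆ O → Q c C) → BB K Q b O := by
  induction h with
  | nil => exact fun _ => BB.nil b
  | add hO hP hbc hd hb ih =>
    intro hPQ
    exact BB.add (ih fun c C h1 h2 => hPQ c C h1 (h2.trans Set.subset_union_left))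
      (hPQ _ _ hP Set.subset_union_right) hbc hd hb

/-- routes through the big branches at one vertex -/
lemma BB.ext {x y : V} {b : W} {O : Set W}
    (h : BB K (fun c C => Rt (StQ G K) {z : V × W | z.2 ∈ insert c C} (y, c) (x, c)) b O) :
    ∀ (s : Set (V × W)) (a : V × W) (w : V) (k : W), (w = x ∨ w = y) → (k = b ∨ K.Adj b k) →
      Disjoint s {z : V × W | z.2 ∈ O} → Rt (StQ G K) s a (w, k) →
      ∃ w' k', (w' = x ∨ w' = y) ∧ ((k' = k ∧ w' = w) ∨ K.Adj b k') ∧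
        Rt (StQ G K) (s ∪ {z : V × W | z.2 ∈ O}) a (w', k') := by
  induction h with
  | nil =>
    intro s a w k hw hk hd hr
    exact ⟨w, k, hw, Or.inl ⟨rfl, rfl⟩, Rt.congr hr (by ext z; simp)⟩
  | @add c O C hO hP hbc hdO hb ih =>
    intro s a w k hw hk hd hr
    obtain ⟨w', k', hw', hk', hr'⟩ := ih s a w k hw hk
      (hd.mono_right (fun z hz => Or.inl hz)) hr
    have hk'' : k' = b ∨ K.Adj b k' := by
      rcases hk' with ⟨rfl, -⟩ | h
      · exact hk
      · exact Or.inr h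
    have hn : Nr K k' c := by
      rcases hk'' with rfl | h
      · exact Or.inl hbc
      · exact Or.inr ⟨b, h.symm, hbc⟩
    obtain ⟨w'', hw'', hr''⟩ : ∃ w'', (w'' = x ∨ w'' = y) ∧
        Rt (StQ G K) {z : V × W | z.2 ∈ insert c C} (w', c) (w'', c) := by
      rcases hw' with rfl | rfl
      · exact ⟨y, Or.inr rfl, Rt.rev StQ.symm hP⟩
      · exact ⟨x, Or.inl rfl, hP⟩
    refine ⟨w'', c, hw'', Or.inr hbc, Rt.congr (Rt.cat hr' hr'' ?_ (Or.inl ⟨rfl, hn⟩)) ?_⟩
    · rw [Set.disjoint_left] at hd hdO ⊢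
      rintro z (hz | hz) hz'
      · exact hd hz (Or.inr hz')
      · exact hdO hz hz'
    · rw [Set.union_assoc]
      rfl

/-- leaves and big branches -/
lemma Br.decomp {b : W} {O : Set W} (h : Br K b O) : ∃ L O' : Set W, O = L ∪ O' ∧
    Disjoint L O' ∧ (L = ∅ ∨ ∃ l l', Rt (Nr K) L l l' ∧ K.Adj b l ∧ K.Adj b l') ∧
    BB K (fun c C => Br K c C ∧ C.Nonempty) b O' := by
  induction h with
  | nil b => exact ⟨∅, ∅, by simp, by simp, Or.inl rfl, BB.nil b⟩
  | @add b c O C hO hC hbc hd hb ih1 ih2 =>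
    obtain ⟨L, O', rfl, hLO, hL, hB⟩ := ih1
    rcases Set.eq_empty_or_nonempty C with rfl | hne
    · have hcL : c ∉ L := fun h => Set.disjoint_left.1 hd (Or.inl h) (Set.mem_insert c ∅)
      have hcO : c ∉ O' := fun h => Set.disjoint_left.1 hd (Or.inr h) (Set.mem_insert c ∅)
      refine ⟨L ∪ {c}, O', ?_, ?_, Or.inr ?_, hB⟩
      · ext z
        simp only [Set.mem_union, Set.mem_insert_iff, Set.mem_empty_iff_false, or_false,
          Set.mem_singleton_iff]
        tauto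
      · rw [Set.disjoint_left] at hLO ⊢
        rintro z (hz | rfl) hz'
        · exact hLO hz hz'
        · exact hcO hz'
      · rcases hL with rfl | ⟨l, l', hr, h1, h2⟩
        · exact ⟨c, c, Rt.congr (Rt.one c) (by simp), hbc, hbc⟩
        · exact ⟨l, c, Rt.cat hr (Rt.one c) (Set.disjoint_singleton_right.2 hcL)
            (nr_of h2 hbc), h1, hbc⟩
    · refine ⟨L, O' ∪ Insert.insert c C, by rw [Set.union_assoc], ?_, hL,
        BB.add hB ⟨hC, hne⟩ hbc (hd.mono_left Set.subset_union_right) hb⟩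
      rw [Set.disjoint_left] at hLO hd ⊢
      rintro z hz (hz' | hz')
      · exact hLO hz hz'
      · exact hd (Or.inl hz) hz'

/-- the inductive claim -/
def SS (G : SimpleGraph V) (K : SimpleGraph W) (x y : V) (b : W) (O : Set W) : Prop :=
  ∃ w c, (w = x ∨ w = y) ∧ K.Adj b c ∧
    Rt (StQ G K) {z : V × W | z.2 ∈ insert b O ∧ z ≠ (x, b)} (y, b) (w, c)

lemma step_back {x y w : V} {b c : W} (hxy : G.Adj x y) (hw : w = x ∨ w = y)
    (hbc : K.Adj b c) : StQ G K (w, c) (x, b) := by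
  rcases hw with rfl | rfl
  · exact Or.inl ⟨rfl, Or.inl hbc.symm⟩
  · exact Or.inr (Or.inr ⟨hxy.symm, hbc.symm⟩)

lemma SS.full {x y : V} {b : W} {O : Set W} (hxy : G.Adj x y) (h : SS G K x y b O) :
    Rt (StQ G K) {z : V × W | z.2 ∈ insert b O} (y, b) (x, b) := by
  obtain ⟨w, c, hw, hbc, hr⟩ := h
  refine Rt.congr (Rt.cat hr (Rt.one (x, b)) ?_ (step_back hxy hw hbc)) ?_
  · rw [Set.disjoint_singleton_right]
    rintro ⟨-, h⟩
    exact h rfl
  · ext z
    simp only [Set.mem_union, Set.mem_ofPred_eq, Set.mem_singleton_iff]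
    constructor
    · rintro (h | rfl)
      · exact h.1
      · exact Set.mem_insert _ _
    · intro h
      by_cases hz : z = (x, b)
      · exact Or.inr hz
      · exact Or.inl ⟨h, hz⟩

lemma mem1 {v x : V} {k b : W} {R : Set V} (e : (v, k) = (x, b)) (h : v ∈ R) : x ∈ R := by
  have e1 : v = x := congrArg Prod.fst e
  rw [← e1]; exact h

lemma mem2 {v x : V} {k b : W} {R : Set W} (e : (v, k) = (x, b)) (h : k ∈ R) : b ∈ R := by
  have e1 : k = b := congrArg Prod.snd e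
  rw [← e1]; exact h

lemma set_branch {x : V} {R : Set V} {b c : W} {L C : Set W} (hx : x ∉ R)
    (hR : ∀ v, v = x ∨ v ∈ R) (hne : b ≠ c) (hbL : b ∉ L) (hbC : b ∉ C) :
    ({z : V × W | (z.1 ∈ R ∧ (z.2 = b ∨ z.2 = c ∨ z.2 ∈ L)) ∨ (z.1 = x ∧ z.2 ∈ L)} ∪
      {z : V × W | z.2 ∈ C}) ∪ {(x, c)} =
      {z : V × W | (z.2 = b ∨ z.2 = c ∨ z.2 ∈ L ∪ C) ∧ z ≠ (x, b)} := by
  ext ⟨v, k⟩
  constructor
  · rintro (((⟨h1, h2 | h2 | h2⟩ | ⟨h1, h2⟩) | h) | h)
    · exact ⟨Or.inl h2, fun e => hx (mem1 e h1)⟩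
    · exact ⟨Or.inr (Or.inl h2), fun e => hx (mem1 e h1)⟩
    · exact ⟨Or.inr (Or.inr (Or.inl h2)), fun e => hx (mem1 e h1)⟩
    · exact ⟨Or.inr (Or.inr (Or.inl h2)), fun e => hbL (mem2 e h2)⟩
    · exact ⟨Or.inr (Or.inr (Or.inr h)), fun e => hbC (mem2 e h)⟩
    · have e2 : k = c := congrArg Prod.snd h
      exact ⟨Or.inr (Or.inl e2), fun e => hne ((congrArg Prod.snd e : k = b).symm.trans e2)⟩
  · rintro ⟨h, h'⟩
    rcases hR v with hv | hv
    · rcases h with h | h | h | h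
      · exact absurd (Prod.ext hv h) h'
      · exact Or.inr (Prod.ext hv h)
      · exact Or.inl (Or.inl (Or.inr ⟨hv, h⟩))
      · exact Or.inl (Or.inr h)
    · rcases h with h | h | h | h
      · exact Or.inl (Or.inl (Or.inl ⟨hv, Or.inl h⟩))
      · exact Or.inl (Or.inl (Or.inl ⟨hv, Or.inr (Or.inl h)⟩))
      · exact Or.inl (Or.inl (Or.inl ⟨hv, Or.inr (Or.inr h)⟩))
      · exact Or.inl (Or.inr h)

lemma set_all {x : V} {b c : W} {O C : Set W} (hbO : b ∉ O) :
    {z : V × W | (z.2 = b ∨ z.2 = c ∨ z.2 ∈ C) ∧ z ≠ (x, b)} ∪ {z : V × W | z.2 ∈ O} =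
      {z : V × W | z.2 ∈ insert b (O ∪ insert c C) ∧ z ≠ (x, b)} := by
  ext ⟨v, k⟩
  constructor
  · rintro (⟨h1 | h1 | h1, h2⟩ | h)
    · exact ⟨Or.inl h1, h2⟩
    · exact ⟨Or.inr (Or.inr (Or.inl h1)), h2⟩
    · exact ⟨Or.inr (Or.inr (Or.inr h1)), h2⟩
    · exact ⟨Or.inr (Or.inl h), fun e => hbO (mem2 e h)⟩
  · rintro ⟨h | h | h | h, h2⟩
    · exact Or.inl ⟨Or.inl h, h2⟩
    · exact Or.inr h
    · exact Or.inl ⟨Or.inr (Or.inl h), h2⟩
    · exact Or.inl ⟨Or.inr (Or.inr h), h2⟩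

lemma set_leaf {x : V} {R : Set V} {b : W} {L O : Set W} (hx : x ∉ R)
    (hR : ∀ v, v = x ∨ v ∈ R) (hbL : b ∉ L) (hbO : b ∉ O) :
    ({z : V × W | z.1 ∈ R ∧ (z.2 = b ∨ z.2 ∈ L)} ∪ {z : V × W | z.1 = x ∧ z.2 ∈ L}) ∪
      {z : V × W | z.2 ∈ O} = {z : V × W | z.2 ∈ insert b (L ∪ O) ∧ z ≠ (x, b)} := by
  ext ⟨v, k⟩
  constructor
  · rintro ((⟨h1, h2 | h2⟩ | ⟨h1, h2⟩) | h)
    · exact ⟨Or.inl h2, fun e => hx (mem1 e h1)⟩
    · exact ⟨Or.inr (Or.inl h2), fun e => hx (mem1 e h1)⟩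
    · exact ⟨Or.inr (Or.inl h2), fun e => hbL (mem2 e h2)⟩
    · exact ⟨Or.inr (Or.inr h), fun e => hbO (mem2 e h)⟩
  · rintro ⟨h, h'⟩
    rcases hR v with hv | hv
    · rcases h with h | h | h
      · exact absurd (Prod.ext hv h) h'
      · exact Or.inl (Or.inr ⟨hv, h⟩)
      · exact Or.inr h
    · rcases h with h | h | h
      · exact Or.inl (Or.inl ⟨hv, Or.inl h⟩)
      · exact Or.inl (Or.inl ⟨hv, Or.inr h⟩)
      · exact Or.inr h

/-- one branch with root `c` below `b` -/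
lemma branch_below {x y : V} {R : Set V} (hxy : G.Adj x y) (hx : x ∉ R)
    (hR : ∀ v, v = x ∨ v ∈ R) (h2 : RT G 2 R y 0 y 1) (h3 : RT G 3 R y 0 y 2)
    {b c : W} {L C : Set W} (hbc : K.Adj b c) (hb : b ∉ L ∪ C) (hc : c ∉ L ∪ C)
    (hd : Disjoint L C)
    (hL : L = ∅ ∨ ∃ l l', Rt (Nr K) L l l' ∧ K.Adj c l ∧ K.Adj c l')
    (hB : BB K (fun c C => Rt (StQ G K) {z : V × W | z.2 ∈ insert c C} (y, c) (x, c)) c C) :
    Rt (StQ G K) {z : V × W | (z.2 = b ∨ z.2 = c ∨ z.2 ∈ L ∪ C) ∧ z ≠ (x, b)} (y, b)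
      (x, c) := by
  have hne := hbc.ne
  have hxR : ∀ {v}, v ∈ R → v ≠ x := fun hv e => hx (e ▸ hv)
  -- the route before the big branches
  obtain ⟨w, k, hw, hk, hr⟩ : ∃ w k, (w = x ∨ w = y) ∧ ((w = y ∧ k = c) ∨ K.Adj c k) ∧
      Rt (StQ G K) {z : V × W | (z.1 ∈ R ∧ (z.2 = b ∨ z.2 = c ∨ z.2 ∈ L)) ∨
        (z.1 = x ∧ z.2 ∈ L)} (y, b) (w, k) := by
    rcases hL with rfl | ⟨l, l', hl, hcl, hcl'⟩
    · obtain ⟨k, k', hk, hr⟩ := core2 (K := K) h2 (Rt.one c) (by simpa using hne) hbc hbc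
      have hkc : k = c := by rcases hk with h | h <;> exact h.1
      subst hkc
      refine ⟨y, k, Or.inr rfl, Or.inl ⟨rfl, rfl⟩, Rt.congr hr ?_⟩
      ext z
      simp
    · obtain ⟨k, k', hk, hr⟩ := core3 (K := K) h3 hl (fun h => hb (Or.inl h))
        (fun h => hc (Or.inl h)) hbc hcl hcl'
      have hf : Rt (StQ G K) {z : V × W | z.1 = x ∧ z.2 ∈ L} (x, k) (x, k') := by
        rcases hk with ⟨rfl, rfl⟩ | ⟨rfl, rfl⟩
        · exact fibre x hl
        · exact Rt.rev StQ.symm (fibre x hl)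
      have hck : K.Adj c k' := by
        rcases hk with ⟨-, rfl⟩ | ⟨-, rfl⟩
        · exact hcl'
        · exact hcl
      refine ⟨x, k', Or.inl rfl, Or.inr hck, Rt.congr (Rt.cat hr hf ?_
        (Or.inr (Or.inl ⟨rfl, Or.inl hxy.symm⟩))) ?_⟩
      · rw [Set.disjoint_left]
        rintro z ⟨h1, -⟩ ⟨h2, -⟩
        exact hxR h1 h2
      · rfl
  -- the big branches
  have hk' : k = c ∨ K.Adj c k := by
    rcases hk with h | h
    · exact Or.inl h.2
    · exact Or.inr h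
  obtain ⟨w', k', hw', hk'', hr'⟩ := hB.ext _ _ w k hw hk' (by
    rw [Set.disjoint_left]
    rintro z (⟨-, h | h | h⟩ | ⟨-, h⟩) hz
    · exact hb (Or.inr (h ▸ hz))
    · exact hc (Or.inr (h ▸ hz))
    · exact Set.disjoint_left.1 hd h hz
    · exact Set.disjoint_left.1 hd h hz) hr
  have hstep : StQ G K (w', k') (x, c) := by
    have hcase : (w' = y ∧ k' = c) ∨ K.Adj c k' := by
      rcases hk'' with ⟨h1, h2⟩ | h
      · rw [h1, h2]; exact hk
      · exact Or.inr h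
    rcases hcase with ⟨rfl, rfl⟩ | h
    · exact Or.inr (Or.inl ⟨rfl, Or.inl hxy.symm⟩)
    · exact step_back hxy hw' h
  refine Rt.congr (Rt.cat hr' (Rt.one (x, c)) ?_ hstep) ?_
  · rw [Set.disjoint_singleton_right]
    rintro ((⟨h, -⟩ | ⟨-, h⟩) | h)
    · exact hx h
    · exact hc (Or.inl h)
    · exact hc (Or.inr h)
  · exact set_branch hx hR hne (fun h => hb (Or.inl h)) (fun h => hb (Or.inr h))

/-- **The main induction.** -/
theorem main_SS [Finite W] {x y : V} {R : Set V} (hxy : G.Adj x y) (hx : x ∉ R)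
    (hR : ∀ v, v = x ∨ v ∈ R) (h2 : RT G 2 R y 0 y 1) (h3 : RT G 3 R y 0 y 2) :
    ∀ (n : ℕ) (b : W) (O : Set W), O.ncard ≤ n → Br K b O → O.Nonempty →
      SS G K x y b O := by
  have hxR : ∀ {v}, v ∈ R → v ≠ x := fun hv e => hx (e ▸ hv)
  intro n
  induction n with
  | zero =>
    intro b O hn _ hne
    have := (Set.ncard_eq_zero (Set.toFinite O)).1 (by omega)
    exact absurd this hne.ne_empty
  | succ n ih =>
    intro b O hn hO hne
    have hbO := hO.not_mem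
    have up : ∀ {b' : W} {O' : Set W}, O' ⊆ O →
        BB K (fun c C => Br K c C ∧ C.Nonempty) b' O' →
        BB K (fun c C => Rt (StQ G K) {z : V × W | z.2 ∈ insert c C} (y, c) (x, c))
          b' O' := by
      intro b' O' hs hB
      refine hB.mono fun c C hP hsub => (ih c C ?_ hP.1 hP.2).full hxy
      have hc := hP.1.not_mem
      have h1 : (insert c C).ncard = C.ncard + 1 := Set.ncard_insert_of_notMem hc
      have h2 : (insert c C).ncard ≤ O.ncard := Set.ncard_le_ncard (hsub.trans hs)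
      omega
    obtain ⟨L, O', hLO, hd, hL, hB⟩ := hO.decomp
    rcases hL with hL0 | ⟨l, l', hr, hl, hl'⟩
    · -- no leaf
      rw [hL0, Set.empty_union] at hLO
      subst hLO
      cases hB with
      | nil => exact absurd rfl hne.ne_empty
      | @add c O₁ C hO₁ hP hbc hdc hbc' =>
        have hcC := hP.1.not_mem
        obtain ⟨L', C', hLC, hd', hL', hB'⟩ := hP.1.decomp
        have hC'sub : C' ⊆ O₁ ∪ insert c C := by
          intro z hz
          right; right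
          rw [hLC]
          exact Or.inr hz
        have key := branch_below hxy hx hR h2 h3 hbc (L := L') (C := C')
          (by rw [← hLC]; exact fun h => hbc' (Or.inr h)) (by rw [← hLC]; exact hcC) hd' hL'
          (up hC'sub hB')
        obtain ⟨w', k', hw', hk', hr'⟩ := (up Set.subset_union_left hO₁).ext _ _ x c
          (Or.inl rfl) (Or.inr hbc) (by
          rw [Set.disjoint_left]
          rintro z ⟨h, -⟩ hz
          rw [← hLC] at h
          rcases h with h | h | h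
          · exact hbO (Or.inl (h ▸ hz))
          · exact Set.disjoint_left.1 hdc hz (Or.inl h)
          · exact Set.disjoint_left.1 hdc hz (Or.inr h)) key
        refine ⟨w', k', hw', ?_, Rt.congr hr' ?_⟩
        · rcases hk' with ⟨rfl, -⟩ | h
          · exact hbc
          · exact h
        · rw [← hLC]
          exact set_all (fun h => hbO (Or.inl h))
    · -- a leaf
      have hbL : b ∉ L := fun h => hbO (by rw [hLO]; exact Or.inl h)
      have hbO' : b ∉ O' := fun h => hbO (by rw [hLO]; exact Or.inr h)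
      obtain ⟨k, k', hk, hr2⟩ := core2 (K := K) h2 hr hbL hl hl'
      have hf : Rt (StQ G K) {z : V × W | z.1 = x ∧ z.2 ∈ L} (x, k) (x, k') := by
        rcases hk with ⟨rfl, rfl⟩ | ⟨rfl, rfl⟩
        · exact fibre x hr
        · exact Rt.rev StQ.symm (fibre x hr)
      have hbk : K.Adj b k' := by
        rcases hk with ⟨-, rfl⟩ | ⟨-, rfl⟩
        · exact hl'
        · exact hl
      have hr3 := Rt.cat hr2 hf (by
        rw [Set.disjoint_left]
        rintro z ⟨h1, -⟩ ⟨h2, -⟩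
        exact hxR h1 h2) (Or.inr (Or.inl ⟨rfl, Or.inl hxy.symm⟩))
      obtain ⟨w', k'', hw', hk'', hr4⟩ := (up (by rw [hLO]; exact Set.subset_union_right)
        hB).ext _ _ x k' (Or.inl rfl) (Or.inr hbk) (by
          rw [Set.disjoint_left] at hd ⊢
          rintro z (⟨-, h | h⟩ | ⟨-, h⟩) hz
          · exact hbO' (h ▸ hz)
          · exact hd h hz
          · exact hd h hz) hr3
      refine ⟨w', k'', hw', ?_, Rt.congr hr4 ?_⟩
      · rcases hk'' with ⟨rfl, -⟩ | h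
        · exact hbk
        · exact h
      · rw [hLO]
        exact set_leaf hx hR hbL hbO'

end Pool.Agent.Lib.MP_aac8f2_co
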