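import Pool.Agent.Lib.MP_aac8f2_co.Two

/-!
# Three layers
-/

open SimpleGraph

namespace Pool.Agent.Lib.MP_aac8f2_co

variable {V : Type*} {G : SimpleGraph V}

/-- two leaves at `x`, three layers -/
lemma three_leaves {x c y : V} (hc : G.Adj x c) (hy : G.Adj x y) (hcy : c ≠ y) :
    TT G 3 x ({c} ∪ {y}) 0 1 ∧ TT G 3 x ({c} ∪ {y}) 0 2 := by
  have h1 : Nr G c y := nr_of hc hy
  have h2 : Nr G y c := nr_of hy hc
  constructor
  · refine ⟨c, c, hc, hc, ?_⟩
    refine Rt.ofList' _ [(c, 0), (y, 0), (y, 1), (y, 2), (c, 2), (c, 1)] _ _ ?_ ?_ ?_ rfl rfl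
    · rintro ⟨v, i⟩
      fin_cases i <;> simp [LL, or_comm]
    · simp [Stp, h1, h2]
    · simp [hcy, hcy.symm]
  · refine ⟨c, y, hc, hy, ?_⟩
    refine Rt.ofList' _ [(c, 0), (y, 0), (y, 1), (c, 1), (c, 2), (y, 2)] _ _ ?_ ?_ ?_ rfl rfl
    · rintro ⟨v, i⟩
      fin_cases i <;> simp [LL, or_comm]
    · simp [Stp, h1, h2]
    · simp [hcy, hcy.symm]

/-- the tree with two vertices -/
lemma three_edge {x c : V} (hc : G.Adj x c) :
    RT G 3 (insert x {c}) x 0 x 1 ∧ RT G 3 (insert x {c}) c 0 x 2 := by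
  have hxc : x ≠ c := hc.ne
  have h1 : Nr G x c := Or.inl hc
  have h2 : Nr G c x := Or.inl hc.symm
  constructor
  · refine Rt.ofList' _ [(x, 0), (c, 0), (c, 1), (c, 2), (x, 2), (x, 1)] _ _ ?_ ?_ ?_ rfl rfl
    · rintro ⟨v, i⟩
      fin_cases i <;> simp [LL, or_comm]
    · simp [Stp, h1, h2]
    · simp [hxc, hxc.symm]
  · refine Rt.ofList' _ [(c, 0), (x, 0), (x, 1), (c, 1), (c, 2), (x, 2)] _ _ ?_ ?_ ?_ rfl rfl
    · rintro ⟨v, i⟩
      fin_cases i <;> simp [LL, or_comm]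
    · simp [Stp, h1, h2]
    · simp [hxc, hxc.symm]

lemma three_single (x : V) : RT G 3 (insert x ∅) x 0 x 2 := by
  refine Rt.ofList' _ [(x, 0), (x, 1), (x, 2)] _ _ ?_ ?_ ?_ rfl rfl
  · rintro ⟨v, i⟩
    fin_cases i <;> simp [LL]
  · simp [Stp]
  · simp

lemma col_disj {m : ℕ} {x : V} {O : Set V} (hx : x ∉ O) (i : Fin m) :
    Disjoint (LL m O) {(x, i)} := by
  rw [Set.disjoint_left]
  rintro ⟨v, j⟩ h1 h2
  simp only [Set.mem_singleton_iff, Prod.mk.injEq] at h2
  obtain ⟨rfl, rfl⟩ := h2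
  exact hx h1

lemma col_ne {m : ℕ} {x : V} {i j : Fin m} (h : i ≠ j) :
    Disjoint ({(x, i)} : Set (V × Fin m)) {(x, j)} := by
  rw [Set.disjoint_left]
  rintro ⟨v, k⟩ h1 h2
  simp only [Set.mem_singleton_iff, Prod.mk.injEq] at h1 h2
  exact h (h1.2.symm.trans h2.2)

/-- (x,a), then `O` from layer `a` to layer `b`, then (x,b) and (x,c) -/
lemma tree_one {x : V} {O : Set V} (hx : x ∉ O) {a b c : Fin 3} (hab : a ≠ b) (hac : a ≠ c)
    (hbc : b ≠ c) (hv : c.val = b.val + 1 ∨ b.val = c.val + 1) (t : NN G 3 x O a b) :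
    RT G 3 (insert x O) x a x c := by
  obtain ⟨y, z, hy, hz, hr⟩ := t
  have r1 : Rt (Stp G 3) ({(x, b)} ∪ {(x, c)}) (x, b) (x, c) :=
    Rt.vert (Rt.one (x, b)) (Rt.one (x, c)) (col_ne hbc) hv
  have r2 : Rt (Stp G 3) (LL 3 O ∪ ({(x, b)} ∪ {(x, c)})) (y, a) (x, c) :=
    Rt.hor hr r1 (Disjoint.sup_right (col_disj hx b) (col_disj hx c)) (Or.inl hz.symm)
  have r3 : Rt (Stp G 3) ({(x, a)} ∪ (LL 3 O ∪ ({(x, b)} ∪ {(x, c)}))) (x, a) (x, c) :=
    Rt.hor (Rt.one (x, a)) r2 (Disjoint.sup_right (col_disj hx a).symm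
      (Disjoint.sup_right (col_ne hab) (col_ne hac))) hy
  refine Rt.congr r3 ?_
  clear r1 r2 r3 hr hy hz hv
  ext ⟨v, i⟩
  have hi : i = a ∨ i = b ∨ i = c := by
    revert a b c i; decide
  simp only [LL, Set.mem_union, Set.mem_singleton_iff, Prod.mk.injEq, Set.mem_ofPred_eq,
    Set.mem_insert_iff]
  by_cases hvx : v = x
  · subst hvx
    simp only [true_and, true_or, iff_true]
    rcases hi with h | h | h
    · exact Or.inl h
    · exact Or.inr (Or.inr (Or.inl h))
    · exact Or.inr (Or.inr (Or.inr h))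
  · simp [hvx]

/-- (x,a), then `O1` from layer `a` to layer `b`, then (x,b), then `O2` from layer `b` to
layer `c`, then (x,c) -/
lemma tree_split {x : V} {O1 O2 : Set V} (hx : x ∉ O1 ∪ O2) (hd : Disjoint O1 O2)
    {a b c : Fin 3} (hab : a ≠ b) (hac : a ≠ c)
    (hbc : b ≠ c) (t : TT G 3 x O1 a b) (t' : TT G 3 x O2 b c) :
    RT G 3 (insert x (O1 ∪ O2)) x a x c := by
  have hx1 : x ∉ O1 := fun h => hx (Or.inl h)
  have hx2 : x ∉ O2 := fun h => hx (Or.inr h)
  obtain ⟨y, z, hy, hz, hr⟩ := t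
  obtain ⟨y', z', hy', hz', hr'⟩ := t'
  have r1 : Rt (Stp G 3) (LL 3 O2 ∪ {(x, c)}) (y', b) (x, c) :=
    Rt.hor hr' (Rt.one (x, c)) (col_disj hx2 c) (Or.inl hz'.symm)
  have r2 : Rt (Stp G 3) ({(x, b)} ∪ (LL 3 O2 ∪ {(x, c)})) (x, b) (x, c) :=
    Rt.hor (Rt.one (x, b)) r1 (Disjoint.sup_right (col_disj hx2 b).symm (col_ne hbc))
      (Or.inl hy')
  have r3 : Rt (Stp G 3) (LL 3 O1 ∪ ({(x, b)} ∪ (LL 3 O2 ∪ {(x, c)}))) (y, a) (x, c) :=
    Rt.hor hr r2 (Disjoint.sup_right (col_disj hx1 b)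
      (Disjoint.sup_right (LL_disj hd) (col_disj hx1 c))) (Or.inl hz.symm)
  have r4 : Rt (Stp G 3) ({(x, a)} ∪ (LL 3 O1 ∪ ({(x, b)} ∪ (LL 3 O2 ∪ {(x, c)}))))
      (x, a) (x, c) :=
    Rt.hor (Rt.one (x, a)) r3 (Disjoint.sup_right (col_disj hx1 a).symm
      (Disjoint.sup_right (col_ne hab) (Disjoint.sup_right (col_disj hx2 a).symm
        (col_ne hac)))) (Or.inl hy)
  refine Rt.congr r4 ?_
  clear r1 r2 r3 r4 hr hy hz hr' hy' hz' hx hd
  ext ⟨v, i⟩
  have hi : i = a ∨ i = b ∨ i = c := by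
    revert a b c i; decide
  simp only [LL, Set.mem_union, Set.mem_singleton_iff, Prod.mk.injEq, Set.mem_ofPred_eq,
    Set.mem_insert_iff]
  by_cases hvx : v = x
  · subst hvx
    simp only [true_and, true_or, iff_true]
    rcases hi with h | h | h
    · exact Or.inl h
    · exact Or.inr (Or.inr (Or.inl h))
    · exact Or.inr (Or.inr (Or.inr (Or.inr h)))
  · simp [hvx]

/-- the facts on a forest `O` at `x` which is neither empty nor a single leaf -/
def Big (G : SimpleGraph V) (x : V) (O : Set V) : Prop :=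
  (TT G 3 x O 0 1 ∨ (TT G 3 x O 0 0 ∧ TT G 3 x O 0 2)) ∧
  (TT G 3 x O 0 1 ∨ ∃ O1 O2, O = O1 ∪ O2 ∧ Disjoint O1 O2 ∧ TT G 3 x O1 0 1 ∧
    TT G 3 x O2 0 1) ∧
  (NN G 3 x O 0 2 ∨ ∃ O1 O2, O = O1 ∪ O2 ∧ Disjoint O1 O2 ∧ TT G 3 x O1 0 2 ∧
    TT G 3 x O2 0 1)

/-- adding a leaf -/
lemma Big.leaf {x : V} {O B : Set V} (h : Big G x O) (hd : Disjoint O B)
    (b : TT G 3 x B 0 2) : Big G x (O ∪ B) := by
  obtain ⟨hδ, hα, -⟩ := h
  refine ⟨?_, ?_, ?_⟩
  · rcases hδ with t | ⟨t, t'⟩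
    · left
      have t21 : TT G 3 x O 2 1 := t.flip
      exact b.cat' t21 hd.symm
    · right
      have t22 : TT G 3 x O 2 2 := t.flip
      have t20 : TT G 3 x O 2 0 := t'.flip
      exact ⟨b.cat' t20 hd.symm, b.cat' t22 hd.symm⟩
  · rcases hα with t | ⟨O1, O2, rfl, hd', t, t'⟩
    · left
      have t21 : TT G 3 x O 2 1 := t.flip
      exact b.cat' t21 hd.symm
    · right
      rw [Set.disjoint_union_left] at hd
      have t21 : TT G 3 x O1 2 1 := t.flip
      refine ⟨B ∪ O1, O2, ?_, ?_, b.cat t21 hd.1.symm, t'⟩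
      · rw [Set.union_comm, Set.union_assoc]
      · rw [Set.disjoint_union_left]
        exact ⟨hd.2.symm, hd'⟩
  · rcases hδ with t | ⟨t, t'⟩
    · right
      exact ⟨B, O, Set.union_comm _ _, hd.symm, b, t⟩
    · left
      have t22 : TT G 3 x O 2 2 := t.flip
      exact (b.cat' t22 hd.symm).nn

/-- adding a branch which is not a leaf -/
lemma Big.branch {x : V} {O B : Set V} (h : Big G x O) (hd : Disjoint O B)
    (b : TT G 3 x B 0 1) : Big G x (O ∪ B) := by
  obtain ⟨hδ, hα, -⟩ := h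
  have b10 : TT G 3 x B 1 0 := b.rev
  have b12 : TT G 3 x B 1 2 := b.rev.flip
  refine ⟨?_, ?_, ?_⟩
  · rcases hδ with t | ⟨t, t'⟩
    · exact Or.inr ⟨t.cat b10 hd, t.cat b12 hd⟩
    · exact Or.inl (t.cat b hd)
  · rcases hα with t | ⟨O1, O2, rfl, hd', t, t'⟩
    · exact Or.inr ⟨O, B, rfl, hd, t, b⟩
    · left
      have t10 : TT G 3 x O2 1 0 := t'.rev
      exact (t.cat t10 hd').cat b hd
  · rcases hδ with t | ⟨t, t'⟩
    · exact Or.inl (t.cat b12 hd).nn
    · exact Or.inr ⟨O, B, rfl, hd, t', b⟩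

/-- a leaf and a branch which is not a leaf -/
lemma Big.leaf_branch {x : V} {O B : Set V} (o : TT G 3 x O 0 2) (hd : Disjoint O B)
    (b : TT G 3 x B 0 1) : Big G x (O ∪ B) := by
  have b21 : TT G 3 x B 2 1 := b.flip
  exact ⟨Or.inl (o.cat b21 hd), Or.inl (o.cat b21 hd), Or.inr ⟨O, B, rfl, hd, o, b⟩⟩

/-- the tree with a big forest -/
lemma Big.tree {x : V} {O : Set V} (h : Big G x O) (hx : x ∉ O) :
    RT G 3 (insert x O) x 0 x 1 ∧ RT G 3 (insert x O) x 0 x 2 := by
  obtain ⟨-, hα, hβ⟩ := h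
  constructor
  · rcases hβ with t | ⟨O1, O2, rfl, hd', t, t'⟩
    · exact tree_one hx (a := 0) (b := 2) (c := 1) (by decide) (by decide) (by decide)
        (by decide) t
    · have t21 : TT G 3 x O2 2 1 := t'.flip
      exact tree_split hx hd' (a := 0) (b := 2) (c := 1) (by decide) (by decide) (by decide)
        t t21
  · rcases hα with t | ⟨O1, O2, rfl, hd', t, t'⟩
    · exact tree_one hx (a := 0) (b := 1) (c := 2) (by decide) (by decide) (by decide)
        (by decide) t.nn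
    · have t12 : TT G 3 x O2 1 2 := t'.rev.flip
      exact tree_split hx hd' (a := 0) (b := 1) (c := 2) (by decide) (by decide) (by decide)
        t t12

/-- **Three layers.** -/
theorem three {x : V} {O : Set V} (h : Br G x O) :
    ((¬ ∃ c, O = {c}) → RT G 3 (insert x O) x 0 x 2) ∧
    (O.Nonempty → RT G 3 (insert x O) x 0 x 1) ∧
    (O.Nonempty → ∃ g, (g = x ∨ G.Adj x g) ∧ RT G 3 (insert x O) g 0 x 2) ∧
    (O.Nonempty → (¬ ∃ c, O = {c}) → Big G x O) ∧
    (∀ c, O = {c} → TT G 3 x O 0 2 ∧ G.Adj x c) := by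
  induction h with
  | nil x =>
    refine ⟨fun _ => three_single x, by simp, by simp, by simp, ?_⟩
    intro c hc
    exact absurd hc.symm (Set.singleton_ne_empty c)
  | @add x y O C hO hC hxy hd hx ih1 ih2 =>
    obtain ⟨-, -, -, D1, E1⟩ := ih1
    obtain ⟨A2, B2, C2, -, -⟩ := ih2
    have hxO := hO.not_mem
    have hx' : x ∉ O ∪ insert y C := by
      rintro (h | h)
      · exact hxO h
      · exact hx h
    -- the new branch
    have bleaf : C = ∅ → TT G 3 x (insert y C) 0 2 := by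
      intro hC0
      exact ⟨y, y, hxy, hxy, A2 (by
        rintro ⟨c, hc⟩
        rw [hC0] at hc
        exact Set.singleton_ne_empty c hc.symm)⟩
    have b01 : C.Nonempty → TT G 3 x (insert y C) 0 1 := fun hne => ⟨y, y, hxy, hxy, B2 hne⟩
    have b02 : C.Nonempty → NN G 3 x (insert y C) 0 2 := by
      intro hne
      obtain ⟨g, hg, hr⟩ := C2 hne
      refine ⟨g, y, ?_, hxy, hr⟩
      rcases hg with rfl | hg
      · exact Or.inl hxy
      · exact Or.inr ⟨y, hxy, hg⟩
    -- the singleton case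
    have hsing : ∀ c, O ∪ insert y C = {c} → O = ∅ ∧ C = ∅ ∧ c = y := by
      intro c hc
      have hyc : y = c := by
        have : y ∈ O ∪ insert y C := Or.inr (Set.mem_insert y C)
        rw [hc] at this
        exact this
      subst hyc
      refine ⟨?_, ?_, rfl⟩
      · rw [Set.eq_empty_iff_forall_notMem]
        intro v hv
        have : v ∈ O ∪ insert y C := Or.inl hv
        rw [hc] at this
        rw [Set.mem_singleton_iff] at this
        subst this
        exact Set.disjoint_left.1 hd hv (Set.mem_insert v C)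
      · rw [Set.eq_empty_iff_forall_notMem]
        intro v hv
        have : v ∈ O ∪ insert y C := Or.inr (Set.mem_insert_of_mem _ hv)
        rw [hc] at this
        rw [Set.mem_singleton_iff] at this
        subst this
        exact hC.not_mem hv
    -- the forest
    have hbig : (¬ ∃ c, O ∪ insert y C = {c}) → Big G x (O ∪ insert y C) := by
      intro hns
      rcases Set.eq_empty_or_nonempty C with hC0 | hCne
      · rcases Set.eq_empty_or_nonempty O with hO0 | hOne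
        · exact absurd ⟨y, by rw [hO0, hC0]; simp⟩ hns
        · by_cases hOs : ∃ c, O = {c}
          · obtain ⟨c, hc⟩ := hOs
            have hxc := (E1 c hc).2
            subst hc
            subst hC0
            have hcy : c ≠ y := by
              rintro rfl
              exact Set.disjoint_left.1 hd (Set.mem_singleton c) (Set.mem_insert c ∅)
            have := three_leaves hxc hxy hcy
            have e : ({c} : Set V) ∪ insert y ∅ = {c} ∪ {y} := by simp
            rw [e]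
            exact ⟨Or.inl this.1, Or.inl this.1, Or.inl this.2.nn⟩
          · exact (D1 hOne hOs).leaf hd (bleaf hC0)
      · rcases Set.eq_empty_or_nonempty O with hO0 | hOne
        · rw [hO0, Set.empty_union]
          exact ⟨Or.inl (b01 hCne), Or.inl (b01 hCne), Or.inl (b02 hCne)⟩
        · by_cases hOs : ∃ c, O = {c}
          · obtain ⟨c, hc⟩ := hOs
            exact Big.leaf_branch (E1 c hc).1 hd (b01 hCne)
          · exact (D1 hOne hOs).branch hd (b01 hCne)
    -- the tree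
    have htree0 : ∀ c, O ∪ insert y C = {c} → RT G 3 (insert x (O ∪ insert y C)) x 0 x 1 ∧
        RT G 3 (insert x (O ∪ insert y C)) y 0 x 2 := by
      intro c hc
      have hcy := (hsing c hc).2.2
      rw [hc, hcy]
      exact three_edge hxy
    refine ⟨?_, ?_, ?_, fun _ hns => hbig hns, ?_⟩
    · intro hns
      exact ((hbig hns).tree hx').2
    · intro _
      by_cases hns : ∃ c, O ∪ insert y C = {c}
      · obtain ⟨c, hc⟩ := hns
        exact (htree0 c hc).1
      · exact ((hbig hns).tree hx').1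
    · intro _
      by_cases hns : ∃ c, O ∪ insert y C = {c}
      · obtain ⟨c, hc⟩ := hns
        exact ⟨y, Or.inr hxy, (htree0 c hc).2⟩
      · exact ⟨x, Or.inl rfl, ((hbig hns).tree hx').2⟩
    · intro c hc
      obtain ⟨hO0, hC0, rfl⟩ := hsing c hc
      refine ⟨?_, hxy⟩
      rw [hO0, Set.empty_union]
      exact bleaf hC0

end Pool.Agent.Lib.MP_aac8f2_co
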