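import Pool.Agent.Lib.MP_aac8f2_co.Routes

/-!
# Two layers
-/

open SimpleGraph

namespace Pool.Agent.Lib.MP_aac8f2_co

lemma Rt.ofList {α : Type*} {St : α → α → Prop} (l : List α) : ∀ (a b : α),
    l.IsChain St → l.Nodup → l.head? = some a → l.getLast? = some b →
    Rt St {z | z ∈ l} a b := by
  induction l with
  | nil => intro a b _ _ h; simp at h
  | cons c l ih =>
    intro a b hc hn ha hb
    have hca : c = a := by simpa using ha
    subst hca
    cases l with
    | nil =>
      have hcb : c = b := by simpa using hb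
      subst hcb
      have e : {z | z ∈ [c]} = ({c} : Set α) := by ext z; simp
      rw [e]
      exact Rt.one c
    | cons d l =>
      have h1 := List.isChain_cons_cons.1 hc
      have h2 := List.nodup_cons.1 hn
      have h3 := ih d b h1.2 h2.2 (by simp) (by simpa using hb)
      have e : {z | z ∈ c :: d :: l} = {c} ∪ {z | z ∈ d :: l} := by
        ext z; simp
      rw [e]
      refine Rt.cat (Rt.one c) h3 ?_ h1.1
      rw [Set.disjoint_left]
      rintro z hz hz'
      rw [Set.mem_singleton_iff] at hz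
      subst hz
      exact h2.1 hz'

lemma Rt.ofList' {α : Type*} {St : α → α → Prop} (s : Set α) (l : List α) (a b : α)
    (hs : ∀ z, z ∈ s ↔ z ∈ l)
    (hc : l.IsChain St) (hn : l.Nodup) (ha : l.head? = some a) (hb : l.getLast? = some b) :
    Rt St s a b := by
  have e : s = {z | z ∈ l} := by ext z; exact hs z
  rw [e]
  exact Rt.ofList l a b hc hn ha hb

variable {V : Type*} {G : SimpleGraph V}

lemma union_insert_eq (x y : V) (O C : Set V) :
    insert y C ∪ insert x O = insert x (O ∪ insert y C) := by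
  ext v
  simp only [Set.mem_union, Set.mem_insert_iff]
  tauto

lemma LL_two_insert (x : V) (O : Set V) :
    {(x, 0)} ∪ (LL 2 O ∪ {(x, 1)}) = LL 2 (insert x O) := by
  ext ⟨v, i⟩
  fin_cases i
  · simp [LL]
  · simp [LL]

/-- two leaves at `x`, two layers -/
lemma two_leaves {x c y : V} (hc : G.Adj x c) (hy : G.Adj x y) (hcy : c ≠ y) :
    TT G 2 x ({c} ∪ {y}) 0 1 := by
  refine ⟨c, c, hc, hc, ?_⟩
  have h1 : Nr G c y := nr_of hc hy
  have h2 : Nr G y c := nr_of hy hc
  refine Rt.ofList' _ [(c, 0), (y, 0), (y, 1), (c, 1)] _ _ ?_ ?_ ?_ rfl rfl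
  · rintro ⟨v, i⟩
    fin_cases i <;> simp [LL] <;> tauto
  · simp [Stp, h1, h2]
  · simp [hcy, hcy.symm]

/-- **Two layers.** -/
theorem two {x : V} {O : Set V} (h : Br G x O) :
    RT G 2 (insert x O) x 0 x 1 ∧
    (O.Nonempty → ∃ g, G.Adj x g ∧ RT G 2 (insert x O) g 0 x 0) ∧
    (O.Nonempty → (TT G 2 x O 0 1 ∧ ((∃ c, O = {c}) ∨ NN G 2 x O 0 0)) ∨
      (TT G 2 x O 0 0 ∧ NN G 2 x O 0 1)) := by
  induction h with
  | nil x =>
    refine ⟨?_, by simp, by simp⟩
    refine Rt.ofList' _ [(x, 0), (x, 1)] _ _ ?_ ?_ ?_ rfl rfl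
    · rintro ⟨v, i⟩
      fin_cases i <;> simp [LL]
    · simp [Stp]
    · simp
  | @add x y O C hO hC hxy hd hx ih1 ih2 =>
    obtain ⟨A1, B1, C1⟩ := ih1
    obtain ⟨A2, B2, C2⟩ := ih2
    have hxO := hO.not_mem
    have T01 : TT G 2 x (insert y C) 0 1 := ⟨y, y, hxy, hxy, A2⟩
    have T10 : TT G 2 x (insert y C) 1 0 := T01.rev
    have N00 : C.Nonempty → NN G 2 x (insert y C) 0 0 := by
      intro hne
      obtain ⟨g, hg, hr⟩ := B2 hne
      exact ⟨g, y, Or.inr ⟨y, hxy, hg⟩, hxy, hr⟩
    have hforest : (TT G 2 x (O ∪ insert y C) 0 1 ∧ ((∃ c, O ∪ insert y C = {c}) ∨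
        NN G 2 x (O ∪ insert y C) 0 0)) ∨
        (TT G 2 x (O ∪ insert y C) 0 0 ∧ NN G 2 x (O ∪ insert y C) 0 1) := by
      rcases Set.eq_empty_or_nonempty O with rfl | hOne
      · left
        rw [Set.empty_union]
        refine ⟨T01, ?_⟩
        rcases Set.eq_empty_or_nonempty C with rfl | hCne
        · exact Or.inl ⟨y, by simp⟩
        · exact Or.inr (N00 hCne)
      · rcases C1 hOne with ⟨t, t'⟩ | ⟨t, t'⟩
        · right
          refine ⟨t.cat T10 hd, ?_⟩
          rcases t' with ⟨c, rfl⟩ | t'
          · rcases Set.eq_empty_or_nonempty C with rfl | hCne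
            · obtain ⟨w, w', hw, hw', hr⟩ := t
              have hw1 : w = c := by
                have : (w, (0 : Fin 2)) ∈ LL 2 ({c} : Set V) := by
                  obtain ⟨n, f, f0, -, -, -, fm⟩ := Rt.seq hr
                  exact (fm _).2 ⟨0, by omega, f0⟩
                simpa [LL] using this
              subst hw1
              have hwy : w ≠ y := by
                rintro rfl
                exact Set.disjoint_left.1 hd (Set.mem_singleton w) (Set.mem_insert w ∅)
              have := (two_leaves hw hxy hwy).nn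
              simpa using this
            · rw [Set.union_comm]
              exact (N00 hCne).cat t hd.symm
          · exact t'.cat T01 hd
        · left
          exact ⟨t.cat T01 hd, Or.inr (t'.cat T10 hd)⟩
    have hN : NN G 2 x (O ∪ insert y C) 0 1 := by
      rcases hforest with h | h
      · exact h.1.nn
      · exact h.2
    refine ⟨?_, ?_, fun _ => hforest⟩
    · obtain ⟨w, z, hw, hz, hr⟩ := hN
      have hx' : x ∉ O ∪ insert y C := by
        rintro (h | h)
        · exact hxO h
        · exact hx h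
      have r1 : Rt (Stp G 2) (LL 2 (O ∪ insert y C) ∪ {(x, 1)}) (w, 0) (x, 1) :=
        Rt.hor hr (Rt.one (x, 1)) (by
          rw [Set.disjoint_left]
          rintro ⟨v, i⟩ h1 h2
          simp only [Set.mem_singleton_iff, Prod.mk.injEq] at h2
          obtain ⟨rfl, rfl⟩ := h2
          exact hx' h1) (Or.inl hz.symm)
      have r2 : Rt (Stp G 2) ({(x, 0)} ∪ (LL 2 (O ∪ insert y C) ∪ {(x, 1)})) (x, 0) (x, 1) :=
        Rt.hor (Rt.one (x, 0)) r1 (by
          rw [Set.disjoint_left]
          rintro ⟨v, i⟩ h1 h2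
          simp only [Set.mem_singleton_iff, Prod.mk.injEq] at h1
          obtain ⟨rfl, rfl⟩ := h1
          rcases h2 with h2 | h2
          · exact hx' h2
          · simp at h2) hw
      exact Rt.congr r2 (LL_two_insert _ _)
    · intro _
      refine ⟨y, hxy, ?_⟩
      have hd' : Disjoint (insert y C) (insert x O) := by
        rw [Set.disjoint_left]
        rintro v h1 h2
        rcases h2 with rfl | h2
        · exact hx h1
        · exact Set.disjoint_left.1 hd h2 h1
      have A1' : RT G 2 (insert x O) x 1 x 0 := A1.rev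
      have := RT.cat A2 A1' (Or.inl hxy.symm) hd'
      rw [union_insert_eq] at this
      exact this

end Pool.Agent.Lib.MP_aac8f2_co
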